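import Pool.Agent.P.MP_abcfaf_gt.R.Comp

open Set Filter Topology

namespace Pool.Agent.P.MP_abcfaf_gt.R

open Pool.Agent.P.MP_abcfaf_gt

universe u

variable {X : Type u} [TopologicalSpace X]

/-- A union of quasi-components. -/
def Sat (O : Set X) : Prop := ∀ w ∈ O, QC w ⊆ O

theorem Sat.out {O : Set X} (h : Sat O) {w y : X} (hw : w ∉ O) (hy : y ∈ QC w) : y ∉ O :=
  fun h' => hw (h y h' (by rw [QC_eq hy]; exact mem_QC w))

/-- Completeness data with compact, upper semicontinuous quasi-components. -/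
structure Cz (X : Type u) [TopologicalSpace X] where
  Sm : ℕ → Set X → Prop
  shrink : ∀ n z W, IsOpen W → QC z ⊆ W →
    ∃ O, IsOpen O ∧ Sat O ∧ QC z ⊆ O ∧ closure O ⊆ W ∧ Sm n O
  clus : ∀ O : ℕ → Set X, (∀ n, Sm n (O n)) → Antitone O → ∀ t : ℕ → X, (∀ n, t n ∈ O n) →
    ∃ a, MapClusterPt a atTop t
  cpt : ∀ O : ℕ → Set X, (∀ n, Sm n (O n)) → IsCompact (⋂ n, closure (O n))
  comp : ∀ z : X, IsCompact (QC z)

theorem mem_of_clus {t : ℕ → X} {a : X} (h : MapClusterPt a atTop t) {A : Set X}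
    (hA : ∀ᶠ n in atTop, t n ∈ A) : a ∈ closure A := by
  rw [mem_closure_iff_nhds]
  intro O hO
  obtain ⟨n, h1, h2⟩ := ((mapClusterPt_iff_frequently.1 h O hO).and_eventually hA).exists
  exact ⟨t n, h1, h2⟩

theorem zero_dn (hK : KP X) (T : Tour X) {p : X} {D W : Set X} (hD : IsClopen D) (hp : p ∈ D)
    (hW : IsOpen W) (N : ℕ → Set X) (h1 : ∀ n, IsClopen (N n)) (h2 : ∀ n, p ∈ N n)
    (h3 : ∀ y, (∀ n, y ∈ N n) → y ∈ W) : ∃ M, IsClopen M ∧ M.Nonempty ∧ M ⊆ D ∧ Dn W M := by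
  by_contra hno
  push Not at hno
  have hcl : ∀ n, IsClopen (D ∩ ⋂ k ∈ Finset.range (n + 1), N k) := fun n =>
    hD.inter (isClopen_biInter_finset fun k _ => h1 k)
  have := fun n => hno _ (hcl n) ⟨p, hp, mem_iInter₂.2 fun k _ => h2 k⟩ inter_subset_left
  simp only [Dn, not_forall] at this
  choose E k1 k2 k3 k4 using this
  obtain ⟨q, hq⟩ := clopen_clus hK T E k1 k2
  have h5 : q ∈ W := by
    refine h3 q fun m => ?_
    by_contra hm
    obtain ⟨n, hn, -, y, hy, hy'⟩ := frequently_atTop.1 (hq _ ((h1 m).compl.isOpen.mem_nhds hm)) m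
    exact hy (mem_iInter₂.1 (k3 n hy').2 m (Finset.mem_range.2 (by omega)))
  obtain ⟨n, -, y, hy, hy'⟩ := (hq W (hW.mem_nhds h5)).exists
  exact k4 n ⟨y, hy', hy⟩

theorem half_zero (T : Tour X) {z M : X} (hM : M ∈ QC z) (hmax : ∀ c ∈ QC z, c = M ∨ T.b M c)
    (O : ℕ → Set X) (hO : ∀ n, O n ∈ 𝓝 M)
    (hcl : ∀ t : ℕ → X, (∀ n, t n ∈ O n) → ∃ a ∈ QC z, MapClusterPt a atTop t) :
    ∃ N : ℕ → Set X, (∀ n, IsClopen (N n)) ∧ (∀ n, QC z ⊆ N n) ∧ ∀ y, T.b y M → ∃ n, y ∉ N n := by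
  have hQ : ∀ y, T.b y M → y ∉ QC z := by
    intro y h hy
    rcases hmax y hy with rfl | h'
    · exact T.irr _ h
    · exact T.asym _ _ h h'
  by_cases h : M ∈ closure {y | T.b y M}
  · choose s hs hs' using fun n => mem_closure_iff_nhds.1 h (O n) (hO n)
    obtain ⟨a, ha, hsa⟩ := hcl s hs
    have haM : a = M := by
      rcases closure_minimal (fun y hy => Or.inr hy) (T.rev.isClosed_out M)
        (mem_of_clus hsa (A := {y | T.b y M}) (Eventually.of_forall hs')) with h1 | h1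
      · exact h1
      · exact absurd ha (hQ a h1)
    subst haM
    choose E h1 h2 h3 using fun n => QC_out (hQ _ (hs' n))
    refine ⟨fun n => E n ∩ {y | T.b (s n) y}, fun n => T.clopen_out (h1 n) (h3 n),
      fun n => QC_sub hM (T.clopen_out (h1 n) (h3 n)) ⟨h2 n hM, hs' n⟩, fun y hy => ?_⟩
    obtain ⟨n, hn⟩ := (mapClusterPt_iff_frequently.1 hsa _ ((T.isOpen_out y).mem_nhds hy)).exists
    exact ⟨n, fun h' => T.asym _ _ hn h'.2⟩
  · have hP : IsClopen {y | T.b y M} := by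
      refine ⟨?_, T.isOpen_in M⟩
      rw [← closure_subset_iff_isClosed]
      intro y hy
      rcases closure_minimal (fun y hy => Or.inr hy) (T.rev.isClosed_out M) hy with rfl | h'
      · exact absurd hy h
      · exact h'
    exact ⟨fun _ => {y | T.b y M}ᶜ, fun _ => hP.compl, fun _ y hy h' => hQ y h' hy,
      fun y hy => ⟨0, fun h' => h' hy⟩⟩

/-- The points of `F` that beat `z`. -/
def tin (T : Tour X) (F : Set X) (z : X) : Set X := {f | f ∈ F ∧ T.b f z}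

theorem tin_lc (T : Tour X) {F : Set X} (hF : IsCompact F) {z : X} (hz : z ∉ F) :
    ∀ᶠ w in 𝓝 z, tin T F w = tin T F z := by
  have := hF.eventually_forall_of_forall_eventually (x₀ := z)
    (P := fun w f => (T.b f w ↔ T.b f z)) (fun f hf => by
      obtain ⟨β, hβ⟩ := T.r_exists (x := f) (y := z) (fun h => hz (h ▸ hf))
      obtain ⟨U, V, hU, hV, h1, h2, H⟩ := T.r_opn hβ
      filter_upwards [prod_mem_nhds (hV.mem_nhds h2) (hU.mem_nhds h1)] with p hp
      have k1 := H _ hp.2 _ hp.1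
      have k2 := H _ hp.2 _ h2
      cases β
      · simp only [Tour.r, Bool.false_eq_true, if_false] at k1 k2
        exact ⟨fun k => absurd k (T.asym _ _ k1), fun k => absurd k (T.asym _ _ k2)⟩
      · simp only [Tour.r, if_true] at k1 k2
        exact ⟨fun _ => k2, fun _ => k1⟩)
  filter_upwards [this] with w hw
  ext f
  exact ⟨fun h => ⟨h.1, (hw f h.1).1 h.2⟩, fun h => ⟨h.1, (hw f h.1).2 h.2⟩⟩

theorem tin_clopen (T : Tour X) {F : Set X} (hF : IsCompact F) (hS : Sat F) {z : X} (hz : z ∉ F) :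
    ∃ D, IsClopen D ∧ z ∈ D ∧ Disjoint D F ∧ ∀ w ∈ D, tin T F w = tin T F z := by
  choose! E h1 h2 h3 using fun f (hf : f ∈ F) => QC_out (z := f) (x := z) (fun h => hz (hS f hf h))
  obtain ⟨s, hs, hcov⟩ := hF.elim_nhds_subcover E fun f hf =>
    (h1 f hf).isOpen.mem_nhds (h2 f hf (mem_QC f))
  have hc : IsClopen (⋃ f ∈ s, E f)ᶜ := (isClopen_biUnion_finset fun f hf => h1 f (hs f hf)).compl
  have hout : ∀ w ∈ (⋃ f ∈ s, E f)ᶜ, w ∉ F := fun w hw h => hw (hcov h)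
  refine ⟨(⋃ f ∈ s, E f)ᶜ ∩ {w | tin T F w = tin T F z}, ⟨?_, ?_⟩,
    ⟨fun h => ?_, rfl⟩, Set.disjoint_left.2 fun w hw => hout w hw.1, fun w hw => hw.2⟩
  · rw [← isOpen_compl_iff, isOpen_iff_mem_nhds]
    intro w hw
    by_cases h : w ∈ (⋃ f ∈ s, E f)ᶜ
    · filter_upwards [tin_lc T hF (hout w h)] with w' hw' h'
      exact hw ⟨h, hw'.symm.trans h'.2⟩
    · filter_upwards [hc.compl.isOpen.mem_nhds h] with w' hw' h'
      exact hw' h'.1
  · rw [isOpen_iff_mem_nhds]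
    intro w hw
    filter_upwards [hc.isOpen.mem_nhds hw.1, tin_lc T hF (hout w hw.1)] with w' h h'
    exact ⟨h, h'.trans hw.2⟩
  · obtain ⟨f, hf, h'⟩ := mem_iUnion₂.1 h
    exact h3 f (hs f hf) h'

theorem isolated_comp {F : Set X} (hF : IsCompact F) (hFc : IsClosed F) (hne : F.Nonempty)
    (c : ℕ → X) (hc : ∀ f ∈ F, ∃ n, f ∈ QC (c n)) :
    ∃ p ∈ F, ∃ E, IsClopen E ∧ p ∈ E ∧ E ∩ F ⊆ QC p := by
  by_contra hno
  push Not at hno
  let St := {E : Set X // IsClopen E ∧ (E ∩ F).Nonempty}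
  have step : ∀ (n : ℕ) (E : St), ∃ E' : St, E'.1 ⊆ E.1 ∧ ∀ y ∈ E'.1, y ∉ QC (c n) := by
    rintro n ⟨E, hE, p, hp⟩
    obtain ⟨q, hq, hq'⟩ : ∃ q ∈ E ∩ F, q ∉ QC (c n) := by
      by_cases h : p ∈ QC (c n)
      · obtain ⟨q, h1, h2⟩ := not_subset.1 (hno p hp.2 E hE hp.1)
        exact ⟨q, h1, by rwa [← QC_eq h]⟩
      · exact ⟨p, hp, h⟩
    obtain ⟨E', h1, h2, h3⟩ := QC_out hq'
    exact ⟨⟨E \ E', hE.diff h1, q, ⟨hq.1, h3⟩, hq.2⟩, sdiff_subset, fun y hy h => hy.2 (h2 h)⟩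
  choose nx h1 h2 using step
  let E : ℕ → St := fun n => Nat.rec ⟨univ, isClopen_univ, by simpa using hne⟩ nx n
  obtain ⟨y, hy⟩ := IsCompact.nonempty_iInter_of_sequence_nonempty_isCompact_isClosed
    (fun n => (E n).1 ∩ F) (fun n => inter_subset_inter_left _ (h1 n (E n))) (fun n => (E n).2.2)
    (hF.inter_left (E 0).2.1.isClosed) (fun n => (E n).2.1.isClosed.inter hFc)
  rw [mem_iInter] at hy
  obtain ⟨n, hn⟩ := hc y (hy 0).2
  exact h2 n (E n) y (hy (n + 1)).1 hn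

theorem some_dn (hK : KP X) (T : Tour X) (Z : Cz X) {z : X} {W D : Set X} (hW : IsOpen W)
    (hzW : QC z ⊆ W) (hD : IsClopen D) (hzD : z ∈ D) :
    ∃ M, IsClopen M ∧ M.Nonempty ∧ M ⊆ D ∧ Dn W M := by
  let St := {O : Set X // IsOpen O ∧ QC z ⊆ O}
  have step : ∀ (n : ℕ) (O : St), ∃ O' : St, Sat O'.1 ∧ closure O'.1 ⊆ O.1 ∧ Z.Sm n O'.1 := by
    rintro n ⟨O, h1, h2⟩
    obtain ⟨O', k1, k2, k3, k4, k5⟩ := Z.shrink n z O h1 h2
    exact ⟨⟨O', k1, k3⟩, k2, k4, k5⟩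
  choose nx s1 s2 s3 using step
  let P : ℕ → St := fun n => Nat.rec ⟨W ∩ D, hW.inter hD.isOpen,
    subset_inter hzW (QC_sub (mem_QC z) hD hzD)⟩ nx n
  let O : ℕ → Set X := fun n => (P (n + 1)).1
  have hO : ∀ n, IsOpen (O n) := fun n => (P (n + 1)).2.1
  have hOc : ∀ n, closure (O (n + 1)) ⊆ O n := fun n => s2 (n + 1) (P (n + 1))
  have hOa : Antitone O := antitone_nat_of_succ_le fun n => subset_closure.trans (hOc n)
  have hSm : ∀ n, Z.Sm n (O n) := fun n => s3 n (P n)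
  let F : Set X := ⋂ n, closure (O n)
  have hF : IsCompact F := Z.cpt O hSm
  have hFc : IsClosed F := isClosed_iInter fun n => isClosed_closure
  have hFO : ∀ n, F ⊆ O n := fun n => (iInter_subset _ (n + 1)).trans (hOc n)
  have hFS : Sat F := fun w hw => subset_iInter fun n =>
    (s1 n (P n) w (hFO n hw)).trans subset_closure
  have hFW : F ⊆ W ∩ D := (iInter_subset _ 0).trans (s2 0 (P 0))
  have hzF : z ∈ F := mem_iInter.2 fun n => subset_closure ((P (n + 1)).2.2 (mem_QC z))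
  have hclF : ∀ t : ℕ → X, (∀ n, t n ∈ O n) → ∃ a ∈ F, MapClusterPt a atTop t := by
    intro t ht
    obtain ⟨a, ha⟩ := Z.clus O hSm hOa t ht
    refine ⟨a, mem_iInter.2 fun n => mem_of_clus ha ?_, ha⟩
    filter_upwards [eventually_ge_atTop n] with m hm
    exact hOa hm (ht m)
  have hsep : ∀ H, IsClosed H → Disjoint H F → ∃ m, Disjoint H (O m) := by
    intro H hH hd
    by_contra hno
    push Not at hno
    choose t h1 h2 using fun m => Set.not_disjoint_iff.1 (hno m)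
    obtain ⟨a, ha, ha'⟩ := hclF t h2
    have := mem_of_clus ha' (Eventually.of_forall h1)
    rw [hH.closure_eq] at this
    exact Set.disjoint_left.1 hd this ha
  choose! Dz d1 d2 d3 d4 using fun w (hw : w ∉ F) => tin_clopen T hF hFS hw
  have hcount : (tin T F '' Fᶜ).Countable := by
    have : tin T F '' Fᶜ ⊆ ⋃ m, tin T F '' {w | w ∉ F ∧ Disjoint (Dz w) (O m)} := by
      rintro _ ⟨w, hw, rfl⟩
      obtain ⟨m, hm⟩ := hsep _ (d1 w hw).isClosed (d3 w hw)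
      exact mem_iUnion.2 ⟨m, w, ⟨hw, hm⟩, rfl⟩
    refine (countable_iUnion fun m => Set.Finite.countable ?_).mono this
    by_contra hinf
    have hinf' : (tin T F '' {w | w ∉ F ∧ Disjoint (Dz w) (O m)}).Infinite := hinf
    let e := hinf'.natEmbedding
    choose w hw hw' using fun n => (e n).2
    obtain ⟨q, hq⟩ := clopen_clus hK T (fun n => Dz (w n)) (fun n => d1 _ (hw n).1)
      (fun n => ⟨_, d2 _ (hw n).1⟩)
    have h1 : q ∈ closure (O m)ᶜ :=
      hq.mem_closure fun n _ y hy => Set.disjoint_left.1 (hw n).2 hy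
    rw [(hO m).isClosed_compl.closure_eq] at h1
    have h2 := hq _ (tin_lc T hF (fun h => h1 (hFO m h)))
    obtain ⟨i, -, -, y, hy, hy'⟩ := frequently_atTop.1 h2 0
    obtain ⟨j, hj, -, y', hz, hz'⟩ := frequently_atTop.1 h2 (i + 1)
    have h3 : e i = e j := Subtype.ext (by
      rw [← hw', ← hw', ← d4 _ (hw i).1 y hy', ← d4 _ (hw j).1 y' hz']
      exact hy.trans hz.symm)
    have := e.injective h3
    omega
  let Prob : Set X → X → Prop := fun v p => ∀ f ∈ F, f ∉ QC p → (T.b f p ↔ f ∈ v)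
  by_cases hgood : ∃ p ∈ F, ∀ v ∈ tin T F '' Fᶜ, ¬ Prob v p
  · obtain ⟨p, hp, H⟩ := hgood
    have key : ∀ v ∈ insert univ (tin T F '' Fᶜ), ∃ N, IsClopen N ∧ p ∈ N ∧
        (v ∈ tin T F '' Fᶜ → ∀ w, tin T F w = v → w ∉ N) := by
      intro v _
      by_cases hv : v ∈ tin T F '' Fᶜ
      · have := H v hv
        simp only [Prob, not_forall] at this
        obtain ⟨f, hf, hfp, h⟩ := this
        obtain ⟨E, e1, e2, e3⟩ := QC_out hfp
        by_cases h1 : T.b f p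
        · refine ⟨E ∩ {y | T.b f y}, T.clopen_out e1 e3, ⟨e2 (mem_QC p), h1⟩, fun _ w hw h2 => ?_⟩
          exact h ⟨fun _ => hw ▸ (show f ∈ tin T F w from ⟨hf, h2.2⟩), fun _ => h1⟩
        · have h3 : f ∈ v := by
            by_contra h3
            exact h ⟨fun k => absurd k h1, fun k => absurd k h3⟩
          refine ⟨E ∩ {y | T.b y f}, T.rev.clopen_out e1 e3,
            ⟨e2 (mem_QC p), T.of_not (fun k => hfp (k ▸ mem_QC p)) h1⟩, fun _ w hw h2 => ?_⟩
          rw [← hw] at h3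
          exact T.asym _ _ h3.2 h2.2
      · exact ⟨univ, isClopen_univ, trivial, fun h => absurd h hv⟩
    choose! N n1 n2 n3 using key
    obtain ⟨g, hg⟩ := (hcount.insert univ).exists_eq_range (insert_nonempty _ _)
    have hgm : ∀ n, g n ∈ insert univ (tin T F '' Fᶜ) := fun n => hg ▸ mem_range_self n
    refine zero_dn hK T hD (hFW hp).2 hW (fun n => N (g n)) (fun n => n1 _ (hgm n))
      (fun n => n2 _ (hgm n)) fun y hy => (hFW ?_).1
    by_contra hyF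
    have h1 : tin T F y ∈ tin T F '' Fᶜ := mem_image_of_mem _ hyF
    obtain ⟨n, hn⟩ : tin T F y ∈ range g := hg ▸ mem_insert_of_mem _ h1
    exact n3 _ (hgm n) (hn ▸ h1) y hn.symm (hy n)
  · push Not at hgood
    have hS : (QC '' F).Countable := by
      have : QC '' F ⊆ ⋃ v ∈ tin T F '' Fᶜ,
          (QC '' {p | p ∈ F ∧ Prob v p ∧ p ∈ v} ∪ QC '' {p | p ∈ F ∧ Prob v p ∧ p ∉ v}) := by
        rintro _ ⟨p, hp, rfl⟩
        obtain ⟨v, hv, h⟩ := hgood p hp
        refine mem_biUnion hv ?_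
        by_cases h' : p ∈ v
        · exact Or.inl ⟨p, ⟨hp, h, h'⟩, rfl⟩
        · exact Or.inr ⟨p, ⟨hp, h, h'⟩, rfl⟩
      refine (hcount.biUnion fun v _ => Countable.union ?_ ?_).mono this <;>
        refine Set.Subsingleton.countable ?_ <;>
        rintro _ ⟨p, ⟨h1, h2, h3⟩, rfl⟩ _ ⟨q, ⟨k1, k2, k3⟩, rfl⟩ <;> by_contra hne
      all_goals
        have a1 : p ∉ QC q := fun h => hne (QC_eq h)
        have a2 : q ∉ QC p := fun h => hne (QC_eq h).symm
        have a3 := k2 p h1 a1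
        have a4 := h2 q k1 a2
      · exact T.asym _ _ (a3.2 h3) (a4.2 k3)
      · rcases T.tot p q (fun h => a1 (h ▸ mem_QC p)) with h | h
        · exact h3 (a3.1 h)
        · exact k3 (a4.1 h)
    obtain ⟨g, hg⟩ := hS.exists_eq_range ⟨_, z, hzF, rfl⟩
    choose c _ hc using fun n => (hg ▸ mem_range_self n : g n ∈ QC '' F)
    obtain ⟨p, hp, E, e1, e2, e3⟩ := isolated_comp hF hFc ⟨z, hzF⟩ c (fun f hf => by
      obtain ⟨n, hn⟩ : QC f ∈ range g := hg ▸ mem_image_of_mem _ hf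
      exact ⟨n, by rw [hc, hn]; exact mem_QC f⟩)
    have hcl : ∀ t : ℕ → X, (∀ n, t n ∈ O n ∩ E) → ∃ a ∈ QC p, MapClusterPt a atTop t := by
      intro t ht
      obtain ⟨a, ha, ha'⟩ := hclF t fun n => (ht n).1
      have := mem_of_clus ha' (A := E) (Eventually.of_forall fun n => (ht n).2)
      rw [e1.isClosed.closure_eq] at this
      exact ⟨a, e3 ⟨this, ha⟩, ha'⟩
    have hnb : ∀ M ∈ QC p, ∀ n, O n ∩ E ∈ 𝓝 M := fun M hM n =>
      ((hO n).inter e1.isOpen).mem_nhds ⟨hFO n (hFS p hp hM), QC_sub (mem_QC p) e1 e2 hM⟩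
    obtain ⟨M, hM, hMmax⟩ := QC_max hK T p
    obtain ⟨m, hm, hmmin⟩ := QC_max hK T.rev p
    obtain ⟨N1, a1, a2, a3⟩ := half_zero T hM hMmax _ (hnb M hM) hcl
    obtain ⟨N2, b1, b2, b3⟩ := half_zero T.rev hm hmmin _ (hnb m hm) hcl
    refine zero_dn hK T hD (hFW hp).2 hW (fun n => N1 n ∩ N2 n) (fun n => (a1 n).inter (b1 n))
      (fun n => ⟨a2 n (mem_QC p), b2 n (mem_QC p)⟩) fun y hy => (hFW (hFS p hp ?_)).1
    by_contra h
    rcases T.tot y M (fun h' => h (h' ▸ hM)) with h1 | h1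
    · obtain ⟨n, hn⟩ := a3 y h1
      exact hn (hy n).1
    · obtain ⟨n, hn⟩ := b3 y (T.rev.unif h hM hm h1)
      exact hn (hy n).2

end Pool.Agent.P.MP_abcfaf_gt.R
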