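import Pool.Agent.P.MP_abcfaf_gt.R.NF

open Set Filter Topology

namespace Pool.Agent.P.MP_abcfaf_gt.R

open Pool.Agent.P.MP_abcfaf_gt

universe u

variable {X : Type u} [TopologicalSpace X]

/-- The subspace `Y` is feebly compact (with cluster points taken in `X`). -/
def RFC (Y : Set X) : Prop :=
  ∀ G : ℕ → Set X, (∀ n, IsOpen (G n)) → (∀ n, (G n ∩ Y).Nonempty) →
    ∃ p, Clus (fun _ => True) (fun n => G n ∩ Y) p

/-- Every point has a base of open sets whose boundary lies in a feebly compact subspace. -/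
def Rim (X : Type u) [TopologicalSpace X] : Prop :=
  ∀ x : X, ∀ N ∈ 𝓝 x, ∃ U : Set X, IsOpen U ∧ x ∈ U ∧ U ⊆ N ∧ ∃ Y, frontier U ⊆ Y ∧ RFC Y

theorem RFC.inter {Y O : Set X} (h : RFC Y) (hO : IsOpen O) : RFC (Y ∩ O) := by
  intro G h1 h2
  have e : ∀ n, G n ∩ (Y ∩ O) = (G n ∩ O) ∩ Y := fun n => by
    rw [inter_comm Y O, inter_assoc]
  simp only [e] at h2 ⊢
  exact h _ (fun n => (h1 n).inter hO) h2

/-- The open sets form a test family on a feebly compact subspace. -/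
def openTest [RegularSpace X] (T : Tour X) {Y : Set X} (hY : RFC Y) : Test T Y where
  O G := IsOpen G
  inter h h' := h.inter h'
  clus := hY
  rect G _ v hv p _ hpG := by
    obtain ⟨γ, hγ⟩ := T.r_exists (x := v) (y := p) (fun h => hpG (h ▸ hv))
    obtain ⟨U, V, hU, hV, h1, h2, H⟩ := T.r_opn hγ
    exact ⟨γ, U, V, hU, hV, h1, hV.mem_nhds h2, H⟩
  cut p _ N hN := by
    obtain ⟨U, hU, hUc, hUN⟩ := exists_mem_nhds_isClosed_subset hN
    exact ⟨U, hU, hUN, fun V hV _ => hV.sdiff hUc⟩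

theorem module_rim [RegularSpace X] (hK : KP X) (T : Tour X) (hR : Rim X) {F Y : Set X}
    (hY : RFC Y) (hF : F ⊆ Y) {z : X} (hz : z ∉ closure F) :
    ∃ D ∈ 𝓝 z, ∀ x ∈ F, (∀ d ∈ D, T.b x d) ∨ (∀ d ∈ D, T.b d x) := by
  obtain ⟨N, hN, hNc, hNs⟩ := exists_mem_nhds_isClosed_subset
    (isClosed_closure.isOpen_compl.mem_nhds hz)
  obtain ⟨N', hN', hN'c, hN's⟩ := exists_mem_nhds_isClosed_subset (interior_mem_nhds.2 hN)
  obtain ⟨N'', hN'', hN''c, hN''s⟩ := exists_mem_nhds_isClosed_subset (interior_mem_nhds.2 hN')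
  obtain ⟨W, hW, hzW, hWN, Z, hZ, hZc⟩ := hR z N'' hN''
  have hclW : closure W ⊆ interior N' := (closure_minimal hWN hN''c).trans hN''s
  have hFY : F ⊆ Y ∩ Nᶜ := fun x hx => ⟨hF hx, fun h => hNs h (subset_closure hx)⟩
  have hopen : ∀ u w, u ∉ N' → w ∉ N' →
      IsOpen (interior N' ∩ {y | ¬ (T.b u y ↔ T.b w y)}) ∧
      IsOpen (interior N' ∩ {y | T.b u y ↔ T.b w y}) := by
    intro u w hu hw
    have key : ∀ y ∈ interior N', ∀ᶠ y' in 𝓝 y, y' ∈ interior N' ∧
        (T.b u y' ↔ T.b u y) ∧ (T.b w y' ↔ T.b w y) := by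
      intro y hy
      have k : ∀ u, u ∉ N' → ∀ᶠ y' in 𝓝 y, (T.b u y' ↔ T.b u y) := by
        intro u hu
        rcases T.tot u y (fun h => hu (h ▸ interior_subset hy)) with h | h
        · filter_upwards [(T.isOpen_out u).mem_nhds h] with y' hy'
          exact ⟨fun _ => h, fun _ => hy'⟩
        · filter_upwards [(T.isOpen_in u).mem_nhds h] with y' hy'
          exact ⟨fun h' => absurd h' (T.asym _ _ hy'), fun h' => absurd h' (T.asym _ _ h)⟩
      exact Eventually.and (isOpen_interior.mem_nhds hy) ((k u hu).and (k w hw))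
    constructor <;> rw [isOpen_iff_mem_nhds] <;> intro y hy <;>
      filter_upwards [key y hy.1] with y' hy'
    · exact ⟨hy'.1, by have := hy.2; simp only [mem_ofPred_eq] at this ⊢; rw [hy'.2.1, hy'.2.2]; exact this⟩
    · exact ⟨hy'.1, by have := hy.2; simp only [mem_ofPred_eq] at this ⊢; rw [hy'.2.1, hy'.2.2]; exact this⟩
  have hfin : (trc T (closure W) '' (Y ∩ Nᶜ)).Finite := by
    refine finite_trc (openTest T (hY.inter hNc.isOpen_compl)) (O₀ := univ) isOpen_univ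
      (subset_univ _) ?_
      (fun y _ G hG => ⟨IsOpen.inter hG (T.isOpen_in y), IsOpen.inter hG (T.isOpen_out y)⟩) ?_
    · rw [Set.disjoint_left]
      intro x hx hx'
      exact hx.2 (interior_subset (hN's (interior_subset (hclW hx'))))
    intro b p hb hbp
    have hbN : ∀ k, b k ∉ N' := fun k h => (hb k).2 (interior_subset (hN's h))
    have hpN : p ∉ N' := by
      intro h
      obtain ⟨k, hk⟩ := (hbp.eventually (isOpen_interior.mem_nhds (hN's h))).exists
      exact (hb k).2 (interior_subset hk)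
    let E : ℕ → Set X := fun k => interior N' ∩ {y | ¬ (T.b (b k) y ↔ T.b p y)}
    by_contra hno
    have h1 : ∃ᶠ k in atTop, (E k ∩ frontier W).Nonempty ∨
        ((E k ∩ W).Nonempty ∧ ¬ (E k ∩ frontier W).Nonempty) := by
      refine (not_eventually.1 hno).mono fun k hk => ?_
      by_cases h : (E k ∩ frontier W).Nonempty
      · exact Or.inl h
      · refine Or.inr ⟨?_, h⟩
        by_contra h'
        apply hk
        ext y
        have : y ∈ closure W → (T.b (b k) y ↔ T.b p y) := by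
          intro hy
          by_contra h2
          by_cases hyW : y ∈ W
          · exact h' ⟨y, ⟨hclW hy, h2⟩, hyW⟩
          · exact h ⟨y, ⟨hclW hy, h2⟩, hy, by rwa [hW.interior_eq]⟩
        exact ⟨fun h => ⟨h.1, (this h.1).1 h.2⟩, fun h => ⟨h.1, (this h.1).2 h.2⟩⟩
    have fin : ∀ (ψ : ℕ → ℕ) (E' : ℕ → Set X) (q : X), StrictMono ψ → (∀ k, E' k ⊆ E (ψ k)) →
        ¬ Clus (fun _ => True) E' q := by
      intro ψ E' q hψ hE hq
      have h2 : q ∈ closure N' :=
        hq.mem_closure (fun k _ y hy => interior_subset (hE k hy).1)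
      rw [hN'c.closure_eq, noclus T (hbp.comp hψ.tendsto_atTop) (fun k y hy => (hE k hy).2) hq] at h2
      exact hpN h2
    rcases frequently_or_distrib.1 h1 with h | h
    · obtain ⟨ψ, hψ, h2⟩ := extraction_of_frequently_atTop h
      obtain ⟨q, hq⟩ := hZc (fun k => E (ψ k)) (fun k => (hopen _ _ (hbN _) hpN).1)
        (fun k => (h2 k).mono (inter_subset_inter_right _ hZ))
      exact fin ψ _ q hψ (fun k => inter_subset_left) hq
    · obtain ⟨ψ, hψ, h2⟩ := extraction_of_frequently_atTop h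
      obtain ⟨q, hq⟩ := clopen_clus hK T (fun k => E (ψ k) ∩ W) (fun k => by
        refine ⟨?_, (hopen _ _ (hbN _) hpN).1.inter hW⟩
        have : E (ψ k) ∩ W = closure W \ (interior N' ∩ {y | T.b (b (ψ k)) y ↔ T.b p y}) := by
          ext y
          constructor
          · exact fun hy => ⟨subset_closure hy.2, fun h => hy.1.2 h.2⟩
          · intro hy
            have h3 : y ∈ E (ψ k) := ⟨hclW hy.1, fun h => hy.2 ⟨hclW hy.1, h⟩⟩
            refine ⟨h3, ?_⟩
            by_contra h4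
            exact (h2 k).2 ⟨y, h3, hy.1, by rwa [hW.interior_eq]⟩
        rw [this]
        exact isClosed_closure.sdiff (hopen _ _ (hbN _) hpN).2) (fun k => (h2 k).1)
      exact fin ψ _ q hψ (fun k => inter_subset_left) hq
  have hev : ∀ v ∈ trc T (closure W) '' (Y ∩ Nᶜ), ∀ᶠ y in 𝓝 z, (y ∈ v ↔ z ∈ v) := by
    rintro _ ⟨x, hx, rfl⟩
    rcases T.tot x z (fun h => hx.2 (h ▸ mem_of_mem_nhds hN)) with h | h
    · filter_upwards [hW.mem_nhds hzW, (T.isOpen_out x).mem_nhds h] with y hy hy'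
      exact ⟨fun _ => ⟨subset_closure hzW, h⟩, fun _ => ⟨subset_closure hy, hy'⟩⟩
    · filter_upwards [(T.isOpen_in x).mem_nhds h] with y hy'
      exact ⟨fun h' => absurd h'.2 (T.asym _ _ hy'), fun h' => absurd h'.2 (T.asym _ _ h)⟩
  refine ⟨_, inter_mem (hW.mem_nhds hzW) ((eventually_all_finite hfin).2 hev), fun x hx => ?_⟩
  have h1 := mem_image_of_mem (trc T (closure W)) (hFY hx)
  by_cases h : T.b x z
  · exact Or.inl fun d hd => ((hd.2 _ h1).2 ⟨subset_closure hzW, h⟩).2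
  · refine Or.inr fun d hd => T.of_not ?_ fun h' => h ((hd.2 _ h1).1 ⟨subset_closure hd.1, h'⟩).2
    rintro rfl
    exact (hFY hx).2 (interior_subset (hN's (interior_subset (hclW (subset_closure hd.1)))))

theorem nf_of_rim [RegularSpace X] (hK : KP X) (T : Tour X) (hR : Rim X) : NF T := by
  intro z c hc N hN
  obtain ⟨U, hU, hcU, hUN, Y, hY, hYc⟩ := hR c N hN
  obtain ⟨D0, hD0, hun⟩ := module_rim hK T hR hYc hY (z := c) (by
    rw [isClosed_frontier.closure_eq]
    exact fun h => h.2 (by rwa [hU.interior_eq]))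
  have hD : D0 ∩ U ∈ 𝓝 c := inter_mem hD0 (hU.mem_nhds hcU)
  obtain ⟨E1, Up, a1, a2, a3, a4, a5, a6, a7⟩ := QC_cut T hc hD
  obtain ⟨E2, Lo, b1, b2, b3, b4, b5, b6, b7⟩ := QC_cut T.rev hc hD
  have hJ : ∀ x, x ∈ E1 → x ∈ E2 → x ∈ Up → x ∈ Lo → x ∈ closure U → x ∈ U := by
    intro x h1 h2 h3 h4 h5
    by_contra h6
    have hxc : x ≠ c := by
      rintro rfl
      exact h6 hcU
    obtain ⟨d, hd, hdx⟩ := a7 x ⟨h1, h3⟩ hxc
    obtain ⟨d', hd', hdx'⟩ := b7 x ⟨h2, h4⟩ hxc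
    rcases hun x ⟨h5, by rwa [hU.interior_eq]⟩ with h | h
    · exact T.asym _ _ hdx (h d hd.1)
    · exact T.asym _ _ hdx' (h d' hd'.1)
  have hA : IsClopen ((E1 ∩ E2 ∩ Up ∩ Lo) \ closure U) := by
    refine ⟨?_, (((a1.inter b1).isOpen.inter a3).inter b3).sdiff isClosed_closure⟩
    rw [← closure_subset_iff_isClosed]
    intro x hx
    have h1 : x ∈ E1 := closure_minimal (fun y hy => hy.1.1.1.1) a1.isClosed hx
    have h2 : x ∈ E2 := closure_minimal (fun y hy => hy.1.1.1.2) b1.isClosed hx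
    have h3 : x ∉ U :=
      closure_minimal (fun y hy h => hy.2 (subset_closure h)) hU.isClosed_compl hx
    have h4 : x ∈ Up := by
      rcases a5 (closure_mono (fun y hy => hy.1.1.2) hx) with h | h
      · exact h
      · exact absurd h.2 h3
    have h5 : x ∈ Lo := by
      rcases b5 (closure_mono (fun y hy => hy.1.2) hx) with h | h
      · exact h
      · exact absurd h.2 h3
    exact ⟨⟨⟨⟨h1, h2⟩, h4⟩, h5⟩, fun h => h3 (hJ x h1 h2 h4 h5 h)⟩
  have hE : IsClopen ((E1 ∩ E2) \ ((E1 ∩ E2 ∩ Up ∩ Lo) \ closure U)) := (a1.inter b1).diff hA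
  refine ⟨_, Up, Lo, hE, QC_sub hc hE ⟨⟨a2 hc, b2 hc⟩, fun h => h.2 (subset_closure hcU)⟩,
    a3, b3, a4, b4, a6, b6, ?_⟩
  rintro x ⟨⟨⟨h1, h2⟩, h3⟩, h4⟩
  refine hUN (hJ x h1.1 h1.2 h3 h4 ?_)
  by_contra h5
  exact h2 ⟨⟨⟨h1, h3⟩, h4⟩, h5⟩

theorem compact_of_rim [RegularSpace X] (hK : KP X) (T : Tour X) (hR : Rim X) : CompactSpace X :=
  compact_of_nf hK T (nf_of_rim hK T hR)

theorem rfc_of_pseudo [CompletelyRegularSpace X] {Y : Set X} (h : Pseudocompact Y) : RFC Y := by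
  have h1 : FC (univ : Set Y) := by
    refine fc_of_pseudo fun f hf => ?_
    obtain ⟨M, hM⟩ := h (fun y => f ⟨y, subset_closure trivial⟩)
      (hf.comp (continuous_id.subtype_mk _))
    exact ⟨M, fun y => hM y.1⟩
  intro G hG hne
  obtain ⟨p, hp⟩ := h1 (fun n => Subtype.val ⁻¹' G n) (fun n => (hG n).preimage continuous_subtype_val)
    (fun n => by
      obtain ⟨y, h1, h2⟩ := hne n
      exact ⟨⟨y, h2⟩, h1⟩) (fun n => subset_univ _)
  refine ⟨p.1, fun O hO => (hp _ (continuous_subtype_val.continuousAt.preimage_mem_nhds hO)).mono ?_⟩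
  rintro n ⟨-, y, h2, h3⟩
  exact ⟨trivial, y.1, h2, h3, y.2⟩

end Pool.Agent.P.MP_abcfaf_gt.R
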