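import Pool.Agent.P.MP_abcfaf_gt.R.Cech
import Pool.Agent.P.MP_abcfaf_gt.R.Rim

open Set Filter Topology

namespace Pool.Agent.P.MP_abcfaf_gt.R

open Pool.Agent.P.MP_abcfaf_gt

universe u v

variable {X : Type u} [TopologicalSpace X]

theorem baire_step (hK : KP X) (T : Tour X) (Z : Cz X) (n : ℕ) {M W W' : Set X} (hM : IsClopen M)
    (hne : M.Nonempty) (hW : IsOpen W) (hS : Sat W) (h1 : Dn W M) (h2 : Dn W' M)
    (hd : Disjoint W W') : ∃ M' O t, IsClopen M' ∧ M'.Nonempty ∧ M' ⊆ M ∧ IsOpen O ∧ Sat O ∧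
      O ⊆ W ∧ Z.Sm n O ∧ Dn O M' ∧ t ∈ W ∧ t ∈ M ∧ ∀ y ∈ M', T.b t y := by
  obtain ⟨u, hu, hu'⟩ := h1 M hM hne Subset.rfl
  obtain ⟨w, hw, hw'⟩ := h2 M hM hne Subset.rfl
  obtain ⟨E, e1, e2, e3⟩ := QC_out (z := u) (x := w)
    (fun h => Set.disjoint_left.1 hd (hS u hu' h) hw')
  obtain ⟨u', hv, hv'⟩ := h1 (M \ E) (hM.diff e1) ⟨w, hw, e3⟩ sdiff_subset
  obtain ⟨t, a, E', f1, f2, f3, f4, f5, f6, f7, f8⟩ : ∃ t a E', IsClopen E' ∧ a ∈ E' ∧ t ∉ E' ∧
      a ∈ M ∧ t ∈ M ∧ t ∈ W ∧ a ∈ W ∧ T.b t a := by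
    rcases T.tot u u' (fun h => hv.2 (h ▸ e2 (mem_QC u))) with h | h
    · exact ⟨u, u', Eᶜ, e1.compl, hv.2, fun h' => h' (e2 (mem_QC u)), hv.1, hu, hu', hv', h⟩
    · exact ⟨u', u, E, e1, e2 (mem_QC u), hv.2, hu, hv.1, hv', hu', h⟩
  obtain ⟨O, o1, o2, o3, o4, o5⟩ := Z.shrink n a W hW (hS a f7)
  obtain ⟨M', m1, m2, m3, m4⟩ := some_dn hK T Z o1 o3
    (T.clopen_out (hM.inter f1) (x := t) (fun h => f3 h.2)) ⟨⟨f4, f2⟩, f8⟩
  exact ⟨M', O, t, m1, m2, fun y hy => (m3 hy).1.1, o1, o2, subset_closure.trans o4, o5, m4, f6, f5,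
    fun y hy => (m3 hy).2⟩

theorem baire_cz (hK : KP X) (T : Tour X) (Z : Cz X) {M₀ W₁ W₂ : Set X} (hM : IsClopen M₀)
    (hne : M₀.Nonempty) (o1 : IsOpen W₁) (o2 : IsOpen W₂) (s1 : Sat W₁) (s2 : Sat W₂)
    (h1 : Dn W₁ M₀) (h2 : Dn W₂ M₀) : ¬ Disjoint (closure W₁) (closure W₂) := by
  intro hd
  have hd' : ∀ {A B : Set X}, A ⊆ W₁ → B ⊆ W₂ → Disjoint A B := fun h h' =>
    hd.mono (h.trans subset_closure) (h'.trans subset_closure)
  let St := {s : Set X × Set X × Set X // IsClopen s.1 ∧ s.1.Nonempty ∧ IsOpen s.2.1 ∧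
    IsOpen s.2.2 ∧ Sat s.2.1 ∧ Sat s.2.2 ∧ Dn s.2.1 s.1 ∧ Dn s.2.2 s.1 ∧ s.2.1 ⊆ W₁ ∧ s.2.2 ⊆ W₂}
  have step : ∀ (n : ℕ) (s : St), ∃ s' : St, ∃ t t', s'.1.1 ⊆ s.1.1 ∧ s'.1.2.1 ⊆ s.1.2.1 ∧
      s'.1.2.2 ⊆ s.1.2.2 ∧ Z.Sm n s'.1.2.1 ∧ Z.Sm n s'.1.2.2 ∧ t ∈ s.1.2.1 ∧ t' ∈ s.1.2.2 ∧
      t ∈ s.1.1 ∧ t' ∈ s.1.1 ∧ ∀ y ∈ s'.1.1, T.b t y ∧ T.b t' y := by
    rintro n ⟨⟨M, A, B⟩, k1, k2, k3, k4, k5, k6, k7, k8, k9, k10⟩
    obtain ⟨M', O, t, a1, a2, a3, a4, a5, a6, a7, a8, a9, a10, a11⟩ :=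
      baire_step hK T Z n k1 k2 k3 k5 k7 k8 (hd' k9 k10)
    obtain ⟨M'', O', t', b1, b2, b3, b4, b5, b6, b7, b8, b9, b10, b11⟩ :=
      baire_step hK T Z n a1 a2 k4 k6 (k8.mono a3) a8 (hd' (a6.trans k9) k10).symm
    exact ⟨⟨⟨M'', O, O'⟩, b1, b2, a4, b4, a5, b5, a8.mono b3, b8, a6.trans k9, b6.trans k10⟩, t, t',
      b3.trans a3, a6, b6, a7, b7, a9, b9, a10, a3 b10, fun y hy => ⟨a11 y (b3 hy), b11 y hy⟩⟩
  choose nx t t' k1 k2 k3 k4 k5 k6 k7 k8 k9 k10 using step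
  let s : ℕ → St := fun n => Nat.rec ⟨⟨M₀, W₁, W₂⟩, hM, hne, o1, o2, s1, s2, h1, h2, Subset.rfl,
    Subset.rfl⟩ nx n
  have hMa : Antitone fun n => (s n).1.1 := antitone_nat_of_succ_le fun n => k1 n (s n)
  obtain ⟨a, ha⟩ := Z.clus (fun n => (s (n + 1)).1.2.1) (fun n => k4 n (s n))
    (antitone_nat_of_succ_le fun n => k2 (n + 1) (s (n + 1)))
    (fun n => t (n + 1) (s (n + 1))) (fun n => k6 (n + 1) (s (n + 1)))
  obtain ⟨b, hb⟩ := Z.clus (fun n => (s (n + 1)).1.2.2) (fun n => k5 n (s n))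
    (antitone_nat_of_succ_le fun n => k3 (n + 1) (s (n + 1)))
    (fun n => t' (n + 1) (s (n + 1))) (fun n => k7 (n + 1) (s (n + 1)))
  have hin : ∀ (c : ℕ → X) (p : X), MapClusterPt p atTop c → (∀ n, c n ∈ (s (n + 1)).1.1) →
      ∀ n, p ∈ (s n).1.1 := by
    intro c p hp hc n
    rw [← (s n).2.1.isClosed.closure_eq]
    refine mem_of_clus hp ?_
    filter_upwards [eventually_ge_atTop n] with m hm
    exact hMa (by omega : n ≤ m + 1) (hc m)
  have haM := hin _ a ha fun n => k8 (n + 1) (s (n + 1))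
  have hbM := hin _ b hb fun n => k9 (n + 1) (s (n + 1))
  have e1 : a ∈ closure {y | T.b y b} :=
    mem_of_clus ha (Eventually.of_forall fun n => (k10 (n + 1) (s (n + 1)) b (hbM (n + 2))).1)
  have e2 : b ∈ closure {y | T.b y a} :=
    mem_of_clus hb (Eventually.of_forall fun n => (k10 (n + 1) (s (n + 1)) a (haM (n + 2))).2)
  have hab : a ≠ b := by
    rintro rfl
    exact Set.disjoint_left.1 hd
      (mem_of_clus ha (Eventually.of_forall fun n =>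
        (s (n + 1)).2.2.2.2.2.2.2.2.2.1 (k6 (n + 1) (s (n + 1)))))
      (mem_of_clus hb (Eventually.of_forall fun n =>
        (s (n + 1)).2.2.2.2.2.2.2.2.2.2 (k7 (n + 1) (s (n + 1)))))
  exact T.asym _ _
    ((closure_minimal (fun y hy => Or.inr hy) (T.rev.isClosed_out b) e1).resolve_left hab)
    ((closure_minimal (fun y hy => Or.inr hy) (T.rev.isClosed_out a) e2).resolve_left hab.symm)

/-- An open set containing a component contains a nonempty clopen set. -/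
theorem pi_base (hK : KP X) (T : Tour X) (Z : Cz X) {z : X} {G : Set X} (hG : IsOpen G)
    (hz : QC z ⊆ G) : ∃ D, IsClopen D ∧ D.Nonempty ∧ D ⊆ G := by
  obtain ⟨G1, a1, a2, a3, a4, -⟩ := Z.shrink 0 z G hG hz
  obtain ⟨G2, b1, b2, b3, b4, -⟩ := Z.shrink 0 z G1 a1 a3
  obtain ⟨M, m1, m2, -, m4⟩ := some_dn hK T Z b1 b3 isClopen_univ (mem_univ z)
  by_cases h : M ⊆ G1
  · exact ⟨M, m1, m2, h.trans (subset_closure.trans a4)⟩
  obtain ⟨y, hy, hy'⟩ := not_subset.1 h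
  obtain ⟨W, c1, c2, c3, c4, -⟩ := Z.shrink 0 y (closure G2)ᶜ isClosed_closure.isOpen_compl
    (fun w hw h' => a2.out hy' hw (b4 h'))
  obtain ⟨M', n1, n2, n3, n4⟩ := some_dn hK T Z c1 c3 m1 hy
  exact absurd (Set.disjoint_left.2 fun w hw hw' => c4 hw' hw)
    (baire_cz hK T Z n1 n2 b1 c1 b2 c2 (m4.mono n3) n4)

theorem near_half (hK : KP X) (T : Tour X) (Z : Cz X) (x : X) {W : Set X} (hW : IsOpen W)
    (hx : x ∈ W) : ∃ W' ∈ 𝓝 x, ∀ w ∈ W', w ∉ QC x → T.b w x → QC w ⊆ W := by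
  obtain ⟨M, hM, hmax⟩ := QC_max hK T x
  rcases hmax x (mem_QC x) with rfl | h
  · obtain ⟨O, o1, o2, o3, o4, -⟩ := Z.shrink 0 x (W ∪ {y | T.b x y}) (hW.union (T.isOpen_out x))
      (fun y hy => (hmax y hy).elim (fun h => Or.inl (h ▸ hx)) Or.inr)
    refine ⟨O, o1.mem_nhds (o3 hM), fun w hw hwx hb y hy => ?_⟩
    refine (o4 (subset_closure (o2 w hw hy))).resolve_right (T.asym _ _ ?_)
    exact T.rev.unif (z := w) (fun h => hwx (by rw [QC_eq h]; exact mem_QC w)) (mem_QC w) hy hb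
  · exact ⟨_, (T.isOpen_out M).mem_nhds h, fun w hw hwx hb =>
      absurd (T.unif hwx (mem_QC x) hM hb) (T.asym _ _ hw)⟩

theorem near (hK : KP X) (T : Tour X) (Z : Cz X) (x : X) {W : Set X} (hW : W ∈ 𝓝 x) :
    ∃ W' ∈ 𝓝 x, ∀ w ∈ W', w ∉ QC x → QC w ⊆ interior W := by
  have hx := mem_interior_iff_mem_nhds.2 hW
  obtain ⟨W1, a1, a2⟩ := near_half hK T Z x isOpen_interior hx
  obtain ⟨W2, b1, b2⟩ := near_half hK T.rev Z x isOpen_interior hx
  refine ⟨W1 ∩ W2, inter_mem a1 b1, fun w hw hwx => ?_⟩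
  rcases T.tot w x (fun h => hwx (h ▸ mem_QC w)) with h | h
  · exact a2 w hw.1 hwx h
  · exact b2 w hw.2 hwx h

theorem clus_of_compact {C : Set X} (hC : IsCompact C) {V : ℕ → Set X}
    (h : ∃ᶠ n in atTop, (V n ∩ C).Nonempty) : ∃ p, Clus (fun _ => True) V p := by
  obtain ⟨φ, hφ, h1⟩ := extraction_of_frequently_atTop h
  choose x hx hx' using h1
  obtain ⟨p, -, hp⟩ := hC.exists_mapClusterPt_of_frequently (l := atTop) (f := x)
    (Frequently.of_forall hx')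
  exact ⟨p, clus_of_sub hφ (fun _ => trivial) fun O hO =>
    (mapClusterPt_iff_frequently.1 hp O hO).mono fun n hn => ⟨trivial, x n, hn, hx n⟩⟩

theorem RFC.union_compact {Y C : Set X} (hY : RFC Y) (hC : IsCompact C) : RFC (Y ∪ C) := by
  intro G hG hne
  have : ∃ᶠ n in atTop, (G n ∩ Y).Nonempty ∨ (G n ∩ (Y ∪ C) ∩ C).Nonempty :=
    Frequently.of_forall fun n => by
      obtain ⟨y, h1, h2 | h2⟩ := hne n
      · exact Or.inl ⟨y, h1, h2⟩
      · exact Or.inr ⟨y, ⟨h1, Or.inr h2⟩, h2⟩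
  rcases frequently_or_distrib.1 this with h | h
  · obtain ⟨φ, hφ, h1⟩ := extraction_of_frequently_atTop h
    obtain ⟨p, hp⟩ := hY (fun n => G (φ n)) (fun n => hG _) h1
    exact ⟨p, clus_of_sub (V := fun n => G n ∩ (Y ∪ C)) hφ (fun _ => trivial)
      (hp.mono (fun _ h => h) fun n _ => inter_subset_inter_right _ subset_union_left)⟩
  · exact clus_of_compact hC h

theorem rfc_ends (hK : KP X) (T : Tour X) (Z : Cz X) :
    RFC {y : X | y ∉ interior (QC y) ∨ IsClopen (QC y)} := by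
  set Y := {y : X | y ∉ interior (QC y) ∨ IsClopen (QC y)}
  have hY : ∀ w : X, (QC w ∩ Y).Nonempty := by
    intro w
    by_cases h : QC w ⊆ interior (QC w)
    · exact ⟨w, mem_QC w, Or.inr ⟨isClosed_QC w, subset_interior_iff_isOpen.1 h⟩⟩
    · obtain ⟨y, h1, h2⟩ := not_subset.1 h
      exact ⟨y, h1, Or.inl (by rwa [QC_eq h1])⟩
  intro G hG hne
  have key : ∀ n, ∃ D, IsClopen D ∧ D.Nonempty ∧ ∀ w ∈ D, (G n ∩ Y ∩ QC w).Nonempty := by
    intro n
    obtain ⟨y, h1, h2 | h2⟩ := hne n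
    · obtain ⟨W, k1, k2⟩ := near hK T Z y ((hG n).mem_nhds h1)
      obtain ⟨w, hw, hw'⟩ := not_subset.1 (fun h : W ⊆ QC y =>
        h2 (mem_interior_iff_mem_nhds.2 (mem_of_superset k1 h)))
      obtain ⟨D, d1, d2, d3⟩ := pi_base hK T Z (hG n) ((k2 w hw hw').trans interior_subset)
      refine ⟨D, d1, d2, fun v hv => ?_⟩
      obtain ⟨y', k3, k4⟩ := hY v
      exact ⟨y', ⟨d3 (QC_sub (mem_QC v) d1 hv k3), k4⟩, k3⟩
    · exact ⟨QC y, h2, ⟨y, mem_QC y⟩, fun w hw =>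
        ⟨y, ⟨h1, Or.inr h2⟩, by rw [QC_eq hw]; exact mem_QC y⟩⟩
  choose D d1 d2 d3 using key
  obtain ⟨q, hq⟩ := clopen_clus hK T D d1 d2
  by_cases h : ∃ᶠ n in atTop, q ∈ D n
  · exact clus_of_compact (Z.comp q) (h.mono fun n hn => d3 n q hn)
  · refine ⟨q, fun O hO => ?_⟩
    obtain ⟨W, k1, k2⟩ := near hK T Z q hO
    refine ((hq W k1).and_eventually (not_frequently.1 h)).mono ?_
    rintro n ⟨⟨-, w, hw, hw'⟩, hn⟩
    obtain ⟨y, h1, h2⟩ := d3 n w hw'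
    exact ⟨trivial, y, interior_subset
      (k2 w hw (fun h' => hn (QC_sub h' (d1 n) hw' (mem_QC q))) h2), h1⟩

theorem rim_of_cz (hK : KP X) (T : Tour X) (Z : Cz X) : Rim X := by
  intro x N hN
  obtain ⟨W, k1, k2⟩ := near hK T Z x hN
  obtain ⟨U, u1, u2, u3⟩ := mem_nhds_iff.1 (inter_mem k1 hN)
  have hO : IsOpen (U ∪ ⋃ w ∈ U \ QC x, interior (QC w)) :=
    u2.union (isOpen_biUnion fun _ _ => isOpen_interior)
  refine ⟨U ∪ ⋃ w ∈ U \ QC x, interior (QC w), hO, Or.inl u3, ?_, _, ?_,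
    (rfc_ends hK T Z).union_compact (Z.comp x)⟩
  · refine union_subset (fun y hy => (u1 hy).2) (iUnion₂_subset fun w hw => ?_)
    exact interior_subset.trans ((k2 w (u1 hw.1).1 hw.2).trans interior_subset)
  · intro y hy
    by_contra h
    simp only [mem_union, mem_ofPred_eq, not_or, not_not] at h
    rw [hO.frontier_eq] at hy
    obtain ⟨v, hv, hv'⟩ := mem_closure_iff_nhds.1 hy.1 _ (isOpen_interior.mem_nhds h.1.1)
    have e : QC v = QC y := QC_eq (interior_subset hv)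
    apply hy.2
    rcases hv' with hv' | hv'
    · refine Or.inr (mem_biUnion (x := v) ⟨hv', fun h' => h.2 ?_⟩ (e ▸ h.1.1))
      rw [← QC_eq h', e]
      exact mem_QC y
    · obtain ⟨w, hw, hw'⟩ := mem_iUnion₂.1 hv'
      refine Or.inr (mem_biUnion hw ?_)
      rw [← QC_eq (interior_subset hw'), e]
      exact h.1.1

/-- The data for a `Gδ` subspace of a compact space with a perfect component map. -/
theorem exists_cz (T : Tour X) {K : Type v} [TopologicalSpace K] [CompactSpace K] [T2Space K]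
    {e : X → K} (he : IsEmbedding e) (hG : IsGδ (range e))
    (hp : IsProperMap (ConnectedComponents.mk : X → ConnectedComponents X)) : Nonempty (Cz X) := by
  obtain ⟨G, hGo, hGe⟩ := hG.eq_iInter_nat
  obtain ⟨-, hc, hk⟩ := isProperMap_iff_isClosedMap_and_compact_fibers.1 hp
  have hQ : ∀ y z : X, y ∈ QC z ↔ (y : ConnectedComponents X) = z := fun y z => by
    rw [QC_eq_cc T, ConnectedComponents.coe_eq_coe']
  have hcomp : ∀ z : X, IsCompact (QC z) := fun z => by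
    convert hk (z : ConnectedComponents X) using 1
    ext y
    exact hQ y z
  have hrange : ∀ O : ℕ → Set X, (∀ n, closure (e '' O n) ⊆ G n) → ∀ k,
      (∀ n, k ∈ closure (e '' O n)) → k ∈ range e := fun O h k hk => by
    rw [hGe]
    exact mem_iInter.2 fun n => h n (hk n)
  refine ⟨⟨fun n O => closure (e '' O) ⊆ G n, fun n z W hW hzW => ?_, fun O h1 h2 t ht => ?_,
    fun O h => ?_, hcomp⟩⟩
  · obtain ⟨W', hW', rfl⟩ := he.isInducing.isOpen_iff.1 hW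
    obtain ⟨V, v1, v2, v3⟩ := normal_exists_closure_subset
      ((hcomp z).image he.continuous).isClosed (hW'.inter (hGo n)) (by
        rintro _ ⟨y, hy, rfl⟩
        exact ⟨hzW hy, mem_iInter.1 (hGe ▸ mem_range_self y) n⟩)
    let O : Set X := ConnectedComponents.mk ⁻¹' (ConnectedComponents.mk '' (e ⁻¹' V)ᶜ)ᶜ
    have hO : O ⊆ e ⁻¹' V := fun y hy => by
      by_contra h
      exact hy (mem_image_of_mem _ h)
    have h1 : closure (e '' O) ⊆ W' ∩ G n :=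
      (closure_mono (image_subset_iff.2 hO)).trans v3
    refine ⟨O, (hc _ (v1.preimage he.continuous).isClosed_compl).isOpen_compl.preimage
      ConnectedComponents.continuous_coe, fun w hw y hy => ?_, fun y hy => ?_, ?_,
      h1.trans inter_subset_right⟩
    · have : (y : ConnectedComponents X) = w := (hQ y w).1 hy
      simp only [O, mem_preimage] at hw ⊢
      rwa [this]
    · rintro ⟨w, hw, hw'⟩
      exact hw (v2 (mem_image_of_mem _ ((hQ w z).2 (hw'.trans ((hQ y z).1 hy)))))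
    · rw [he.closure_eq_preimage_closure_image]
      exact preimage_mono (h1.trans inter_subset_left)
  · obtain ⟨k, hk⟩ := exists_clusterPt_of_compactSpace (map (e ∘ t) atTop)
    obtain ⟨a, rfl⟩ := hrange O h1 k fun n => mem_of_clus (t := e ∘ t) hk (by
      filter_upwards [eventually_ge_atTop n] with m hm
      exact mem_image_of_mem _ (h2 hm (ht m)))
    exact ⟨a, he.isInducing.mapClusterPt_iff.1 hk⟩
  · rw [he.isCompact_iff]
    have : e '' ⋂ n, closure (O n) = ⋂ n, closure (e '' O n) := by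
      simp only [he.closure_eq_preimage_closure_image, ← preimage_iInter]
      exact image_preimage_eq_of_subset fun k hk => hrange O h k (mem_iInter.1 hk)
    rw [this]
    exact (isClosed_iInter fun n => isClosed_closure).isCompact

end Pool.Agent.P.MP_abcfaf_gt.R
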