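import Pool.Agent.P.MP_abcfaf_gt.R.NF

open Set Filter Topology

namespace Pool.Agent.P.MP_abcfaf_gt.R

open Pool.Agent.P.MP_abcfaf_gt

universe u

variable {X : Type u} [TopologicalSpace X]

theorem QC_eq {z c : X} (hc : c ∈ QC z) : QC c = QC z := by
  ext y
  exact ⟨fun hy E hE hz => hy E hE (hc E hE hz), fun hy E hE h => QC_sub hc hE h hy⟩

theorem interval_preconnected (T : Tour X) {z a b : X} (ha : a ∈ QC z) (hb : b ∈ QC z)
    (hab : T.b a b) :
    IsPreconnected ({y | y = a ∨ T.b a y} ∩ {y | y = b ∨ T.b y b}) := by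
  set I := {y | y = a ∨ T.b a y} ∩ {y | y = b ∨ T.b y b} with hI
  have hIc : IsClosed I := (T.isClosed_out a).inter (T.rev.isClosed_out b)
  have haI : a ∈ I := ⟨Or.inl rfl, Or.inr hab⟩
  have hbI : b ∈ I := ⟨Or.inr hab, Or.inl rfl⟩
  have hIQ : I ⊆ QC z := by
    intro y hy
    by_contra h
    rcases hy.1 with rfl | h1
    · exact h ha
    rcases hy.2 with rfl | h2
    · exact h hb
    exact T.asym _ _ h1 (T.unif h hb ha h2)
  have hout : ∀ y, y ∉ I → T.b y a ∨ T.b b y := by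
    intro y hy
    by_cases h1 : y = a ∨ T.b a y
    · have h2 : ¬ (y = b ∨ T.b y b) := fun h => hy ⟨h1, h⟩
      push Not at h2
      exact Or.inr (T.of_not h2.1 h2.2)
    · push Not at h1
      exact Or.inl (T.of_not (Ne.symm h1.1) h1.2)
  have hin1 : ∀ y ∈ I, ¬ T.b y a := by
    intro y hy h
    rcases hy.1 with rfl | h1
    · exact T.irr _ h
    · exact T.asym _ _ h h1
  have hin2 : ∀ y ∈ I, ¬ T.b b y := by
    intro y hy h
    rcases hy.2 with rfl | h1
    · exact T.irr _ h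
    · exact T.asym _ _ h h1
  have key : ∀ u v : Set X, IsClosed u → IsClosed v → I ⊆ u ∪ v → Disjoint (I ∩ u) (I ∩ v) →
      a ∈ u → I ⊆ u := by
    intro u v hu hv hcov hd hau
    have hd' : ∀ y ∈ I, y ∈ u → y ∉ v := fun y h1 h2 h3 =>
      Set.disjoint_left.1 hd ⟨h1, h2⟩ ⟨h1, h3⟩
    by_cases hbu : b ∈ u
    · have hcl : IsClopen (I ∩ v) := by
        refine ⟨hIc.inter hv, ?_⟩
        rw [← isClosed_compl_iff]
        have : (I ∩ v)ᶜ = (I ∩ u) ∪ ({y | y = a ∨ T.b y a} ∪ {y | y = b ∨ T.b b y}) := by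
          ext y
          constructor
          · intro hy
            by_cases h : y ∈ I
            · exact Or.inl ⟨h, (hcov h).resolve_right fun h' => hy ⟨h, h'⟩⟩
            · exact Or.inr ((hout y h).imp Or.inr Or.inr)
          · rintro (h | (rfl | h) | (rfl | h)) hy
            · exact hd' y h.1 h.2 hy.2
            · exact hd' y haI hau hy.2
            · exact hin1 y hy.1 h
            · exact hd' y hbI hbu hy.2
            · exact hin2 y hy.1 h
        rw [this]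
        exact (hIc.inter hu).union ((T.rev.isClosed_out a).union (T.isClosed_out b))
      intro y hy
      refine (hcov hy).resolve_right fun h => ?_
      exact hd' a haI hau (QC_sub (hIQ hy) hcl ⟨hy, h⟩ ha).2
    · exfalso
      have hcl : IsClopen ((I ∩ u) ∪ {y | y = a ∨ T.b y a}) := by
        refine ⟨(hIc.inter hu).union (T.rev.isClosed_out a), ?_⟩
        rw [← isClosed_compl_iff]
        have : ((I ∩ u) ∪ {y | y = a ∨ T.b y a})ᶜ = (I ∩ v) ∪ {y | y = b ∨ T.b b y} := by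
          ext y
          constructor
          · intro hy
            by_cases h : y ∈ I
            · exact Or.inl ⟨h, (hcov h).resolve_left fun h' => hy (Or.inl ⟨h, h'⟩)⟩
            · exact Or.inr (Or.inr ((hout y h).resolve_left fun h' => hy (Or.inr (Or.inr h'))))
          · rintro (h | rfl | h) (hy | rfl | hy)
            · exact hd' y h.1 hy.2 h.2
            · exact hd' y haI hau h.2
            · exact hin1 y h.1 hy
            · exact hbu hy.2
            · exact T.irr _ hab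
            · exact T.asym _ _ hab hy
            · exact hin2 y hy.1 h
            · exact T.asym _ _ hab h
            · exact T.nocyc hb ha h hy hab
        rw [this]
        exact (hIc.inter hv).union (T.isClosed_out b)
      rcases QC_sub ha hcl (Or.inr (Or.inl rfl)) hb with h | h | h
      · exact hbu h.2
      · exact T.ne hab h.symm
      · exact T.asym _ _ hab h
  rw [isPreconnected_iff_subset_of_disjoint_closed]
  intro u v hu hv hcov hd
  have hd2 : Disjoint (I ∩ u) (I ∩ v) := by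
    rw [Set.disjoint_left]
    intro y h1 h2
    have : y ∈ I ∩ (u ∩ v) := ⟨h1.1, h1.2, h2.2⟩
    rw [hd] at this
    exact this
  rcases hcov haI with h | h
  · exact Or.inl (key u v hu hv hcov hd2 h)
  · exact Or.inr (key v u hv hu (by rwa [union_comm]) hd2.symm h)

theorem QC_eq_cc (T : Tour X) (z : X) : QC z = connectedComponent z := by
  refine Subset.antisymm (fun a ha => ?_) (fun y hy E hE hz => hE.connectedComponent_subset hz hy)
  by_cases h : a = z
  · exact h ▸ mem_connectedComponent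
  rcases T.tot a z h with h1 | h1
  · exact (interval_preconnected T ha (mem_QC z) h1).subset_connectedComponent
      ⟨Or.inr h1, Or.inl rfl⟩ ⟨Or.inl rfl, Or.inr h1⟩
  · exact (interval_preconnected T (mem_QC z) ha h1).subset_connectedComponent
      ⟨Or.inl rfl, Or.inr h1⟩ ⟨Or.inr h1, Or.inl rfl⟩

theorem isClosed_QC (z : X) : IsClosed (QC z) := by
  rw [← isOpen_compl_iff, isOpen_iff_mem_nhds]
  intro y hy
  obtain ⟨E, h1, h2, h3⟩ := QC_out hy
  exact mem_of_superset (h1.compl.isOpen.mem_nhds h3) fun w hw h => hw (h2 h)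

/-- One half of the normal form, from compact components with small clopen neighbourhoods. -/
theorem half_nf (hK : KP X) (T : Tour X) (hC : ∀ z : X, IsCompact (QC z))
    (hZ : ∀ z : X, ∀ W, IsOpen W → QC z ⊆ W → ∃ K, IsClopen K ∧ QC z ⊆ K ∧ K ⊆ W)
    {z c : X} (hc : c ∈ QC z) {N : Set X} (hN : IsOpen N) (hcN : c ∈ N) :
    ∃ E Up : Set X, IsClopen E ∧ QC z ⊆ E ∧ IsOpen Up ∧ c ∈ Up ∧
      (Up = univ ∨ ∃ d ∈ QC z, T.b d c ∧ Up = {y | T.b d y}) ∧
      ∀ y ∈ E ∩ Up, T.b y c → y ∈ N := by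
  let B : Set X := (QC z ∩ Nᶜ) ∩ {y | y = c ∨ T.b y c}
  have hBc : IsClosed B := ((isClosed_QC z).inter hN.isClosed_compl).inter (T.rev.isClosed_out c)
  have hBk : IsCompact B := (hC z).of_isClosed_subset hBc fun y hy => hy.1.1
  rcases B.eq_empty_or_nonempty with hB | hB
  · obtain ⟨M, hM, hMmax⟩ := QC_max hK T z
    have h1 : ∀ y ∈ QC z, (y = c ∨ T.b y c) → y ∈ N := by
      intro y hy h
      by_contra h'
      have : y ∈ B := ⟨⟨hy, h'⟩, h⟩
      rw [hB] at this
      exact this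
    obtain ⟨K, k1, k2, k3⟩ := hZ z (N ∪ {y | T.b M y}) (hN.union (T.isOpen_out M)) (fun y hy => by
      rcases hMmax y hy with rfl | h
      · exact Or.inl (h1 y hy ((hMmax c hc).imp Eq.symm id))
      · exact Or.inr h)
    refine ⟨K, univ, k1, k2, isOpen_univ, trivial, Or.inl rfl, fun y hy h => ?_⟩
    by_cases hyQ : y ∈ QC z
    · exact h1 y hyQ (Or.inr h)
    · exact (k3 hy.1).resolve_right (T.asym _ _ (T.unif hyQ hc hM h))
  · haveI : Nonempty B := hB.to_subtype
    obtain ⟨d, hd⟩ := IsCompact.nonempty_iInter_of_directed_nonempty_isCompact_isClosed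
      (fun e : B => B ∩ {y | y = e.1 ∨ T.b e.1 y}) (by
        have key : ∀ e e' : B, T.b e.1 e'.1 →
            B ∩ {y | y = e'.1 ∨ T.b e'.1 y} ⊆ B ∩ {y | y = e.1 ∨ T.b e.1 y} := by
          rintro e e' h y ⟨h1, rfl | h2⟩
          · exact ⟨h1, Or.inr h⟩
          · exact ⟨h1, Or.inr (T.tr1 e.2.1.1 e'.2.1.1 h h2)⟩
        intro e e'
        by_cases h : e.1 = e'.1
        · exact ⟨e, Subset.rfl, by simp only [h]; exact Subset.rfl⟩
        rcases T.tot _ _ h with h1 | h1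
        · exact ⟨e', key e e' h1, Subset.rfl⟩
        · exact ⟨e, Subset.rfl, key e' e h1⟩)
      (fun e => ⟨e.1, e.2, Or.inl rfl⟩) (fun e => hBk.inter_right (T.isClosed_out _))
      (fun e => hBc.inter (T.isClosed_out _))
    rw [mem_iInter] at hd
    have hdB : d ∈ B := (hd (Classical.arbitrary B)).1
    have hdc : T.b d c := hdB.2.resolve_left fun h => hdB.1.2 (h ▸ hcN)
    refine ⟨univ, {y | T.b d y}, isClopen_univ, subset_univ _, T.isOpen_out d, hdc,
      Or.inr ⟨d, hdB.1.1, hdc, rfl⟩, fun y hy h => ?_⟩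
    by_contra h'
    have hyQ : y ∈ QC z := by
      by_contra hyQ
      exact T.asym _ _ hy.2 (T.unif hyQ hc hdB.1.1 h)
    rcases (hd ⟨y, ⟨hyQ, h'⟩, Or.inr h⟩).2 with h1 | h1
    · exact T.ne hy.2 h1
    · exact T.asym _ _ hy.2 h1

theorem nf_of_compact (hK : KP X) (T : Tour X) (hC : ∀ z : X, IsCompact (QC z))
    (hZ : ∀ z : X, ∀ W, IsOpen W → QC z ⊆ W → ∃ K, IsClopen K ∧ QC z ⊆ K ∧ K ⊆ W) : NF T := by
  intro z c hc N hN
  obtain ⟨N', h1, h2, h3⟩ := mem_nhds_iff.1 hN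
  obtain ⟨E1, Up, a1, a2, a3, a4, a5, a6⟩ := half_nf hK T hC hZ hc h2 h3
  obtain ⟨E2, Lo, b1, b2, b3, b4, b5, b6⟩ := half_nf hK T.rev hC hZ hc h2 h3
  refine ⟨E1 ∩ E2, Up, Lo, a1.inter b1, subset_inter a2 b2, a3, b3, a4, b4, a5, b5, ?_⟩
  rintro y ⟨⟨⟨k1, k2⟩, k3⟩, k4⟩
  apply h1
  by_cases h : y = c
  · exact h ▸ h3
  rcases T.tot y c h with h' | h'
  · exact a6 y ⟨k1, k3⟩ h'
  · exact b6 y ⟨k2, k4⟩ h'

/-- `B` meets every nonempty clopen subset of `M`. -/
def Dn (B M : Set X) : Prop := ∀ D, IsClopen D → D.Nonempty → D ⊆ M → (D ∩ B).Nonempty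

theorem Dn.mono {B M M' : Set X} (h : Dn B M) (hM : M' ⊆ M) : Dn B M' :=
  fun D h1 h2 h3 => h D h1 h2 (h3.trans hM)

theorem dn_half [FirstCountableTopology X] (hK : KP X) (T : Tour X) {z M : X} (hM : M ∈ QC z)
    (hmax : ∀ c ∈ QC z, c = M ∨ T.b M c) {W : Set X} (hW : W ∈ 𝓝 M) :
    ∃ K, IsClopen K ∧ QC z ⊆ K ∧ Dn W (K ∩ {y | T.b y M}) := by
  have hQ : ∀ y, T.b y M → y ∉ QC z := by
    intro y h hy
    rcases hmax y hy with rfl | h'
    · exact T.irr _ h
    · exact T.asym _ _ h h'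
  obtain ⟨N, hN1, hN2, hN3⟩ : ∃ N : ℕ → Set X, (∀ n, IsClopen (N n)) ∧ (∀ n, QC z ⊆ N n) ∧
      ∀ y, T.b y M → ∃ n, y ∉ N n := by
    by_cases h : M ∈ closure {y | T.b y M}
    · obtain ⟨s, hs, hsM⟩ := mem_closure_iff_seq_limit.1 h
      choose E h1 h2 h3 using fun n => QC_out (hQ _ (hs n))
      refine ⟨fun n => E n ∩ {y | T.b (s n) y}, fun n => T.clopen_out (h1 n) (h3 n),
        fun n => QC_sub hM (T.clopen_out (h1 n) (h3 n)) ⟨h2 n hM, hs n⟩, fun y hy => ?_⟩
      obtain ⟨n, hn⟩ := (hsM.eventually ((T.isOpen_out y).mem_nhds hy)).exists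
      exact ⟨n, fun h' => T.asym _ _ hn h'.2⟩
    · have hP : IsClopen {y | T.b y M} := by
        refine ⟨?_, T.isOpen_in M⟩
        rw [← closure_subset_iff_isClosed]
        intro y hy
        rcases closure_minimal (fun y hy => Or.inr hy) (T.rev.isClosed_out M) hy with rfl | h'
        · exact absurd hy h
        · exact h'
      exact ⟨fun _ => {y | T.b y M}ᶜ, fun _ => hP.compl, fun _ y hy h' => hQ y h' hy,
        fun y hy => ⟨0, fun h' => h' hy⟩⟩
  by_contra hno
  push Not at hno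
  have hcl : ∀ n, IsClopen (⋂ k ∈ Finset.range (n + 1), N k) := fun n =>
    isClopen_biInter_finset fun k _ => hN1 k
  have := fun n => hno _ (hcl n) (subset_iInter₂ fun k _ => hN2 k)
  simp only [Dn, not_forall] at this
  choose D h1 h2 h3 h4 using this
  obtain ⟨q, hq⟩ := clopen_clus hK T D h1 h2
  have h5 : q ∈ closure {y | T.b y M} := hq.mem_closure fun n _ y hy => (h3 n hy).2
  rcases closure_minimal (fun y hy => Or.inr hy) (T.rev.isClosed_out M) h5 with rfl | h6
  · obtain ⟨n, -, y, hy, hy'⟩ := (hq W hW).exists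
    exact h4 n ⟨y, hy', hy⟩
  · obtain ⟨m, hm⟩ := hN3 q h6
    obtain ⟨n, hn, -, y, hy, hy'⟩ := frequently_atTop.1 (hq _ ((hN1 m).compl.isOpen.mem_nhds hm)) m
    exact hy (mem_iInter₂.1 (h3 n hy').1 m (Finset.mem_range.2 (by omega)))

theorem dn_full [FirstCountableTopology X] (hK : KP X) (T : Tour X) (z : X) {W : Set X}
    (hW : IsOpen W) (hzW : QC z ⊆ W) : ∃ K, IsClopen K ∧ z ∈ K ∧ Dn W K := by
  obtain ⟨M, hM, hMmax⟩ := QC_max hK T z
  obtain ⟨m, hm, hmmin⟩ := QC_max hK T.rev z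
  obtain ⟨K1, a1, a2, a3⟩ := dn_half hK T hM hMmax (hW.mem_nhds (hzW hM))
  obtain ⟨K2, b1, b2, b3⟩ := dn_half hK T.rev hm hmmin (hW.mem_nhds (hzW hm))
  refine ⟨K1 ∩ K2, a1.inter b1, ⟨a2 (mem_QC z), b2 (mem_QC z)⟩, fun D hD ⟨y, hy⟩ hDK => ?_⟩
  by_cases h : z ∈ D
  · exact ⟨z, h, hzW (mem_QC z)⟩
  have hQ : ∀ c ∈ QC z, c ∉ D := fun c hc h' => h (QC_sub hc hD h' (mem_QC z))
  have hyQ : y ∉ QC z := fun h' => hQ y h' hy
  rcases T.tot y M (fun h' => hyQ (h' ▸ hM)) with h1 | h1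
  · exact (a3 (D ∩ {w | T.b w M}) (T.rev.clopen_out hD (hQ M hM)) ⟨y, hy, h1⟩
      (fun w hw => ⟨(hDK hw.1).1, hw.2⟩)).mono (inter_subset_inter_left _ inter_subset_left)
  · exact (b3 (D ∩ {w | T.b m w}) (T.clopen_out hD (hQ m hm)) ⟨y, hy, T.rev.unif hyQ hM hm h1⟩
      (fun w hw => ⟨(hDK hw.1).2, hw.2⟩)).mono (inter_subset_inter_left _ inter_subset_left)

end Pool.Agent.P.MP_abcfaf_gt.R
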