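import Pool.Agent.P.MP_abcfaf_gt.R.Comp

open Set Filter Topology Metric

namespace Pool.Agent.P.MP_abcfaf_gt.R

open Pool.Agent.P.MP_abcfaf_gt

universe u

variable {X : Type u} [MetricSpace X]

/-- The components containing two points at distance at least `ε`. -/
def Big (X : Type u) [MetricSpace X] (ε : ℝ) : Set (Set X) :=
  {C | (∃ x, C = QC x) ∧ ∃ a ∈ C, ∃ b ∈ C, ε ≤ dist a b}

theorem avoid {ε : ℝ} (h : (Big X ε).Finite) (y : X) :
    ∃ E, IsClopen E ∧ QC y ⊆ E ∧ ∀ w ∈ E, w ∉ QC y → QC w ⊆ ball w ε := by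
  have h1 : ∀ C ∈ Big X ε \ {QC y}, ∃ E, IsClopen E ∧ QC y ⊆ E ∧ Disjoint C E := by
    rintro _ ⟨⟨⟨x, rfl⟩, -⟩, hne⟩
    have hx : x ∉ QC y := fun hx => hne (QC_eq hx)
    obtain ⟨E, k1, k2, k3⟩ := QC_out hx
    exact ⟨E, k1, k2, Set.disjoint_left.2 fun w hw => QC_sub (mem_QC x) k1.compl k3 hw⟩
  choose! E h2 h3 h4 using h1
  refine ⟨⋂ C ∈ Big X ε \ {QC y}, E C, (h.subset sdiff_subset).isClopen_biInter h2,
    subset_iInter₂ h3, fun w hw hwy v hv => ?_⟩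
  by_contra hv'
  have hB : QC w ∈ Big X ε \ {QC y} :=
    ⟨⟨⟨w, rfl⟩, v, hv, w, mem_QC w, by simpa using hv'⟩, fun h' => hwy (by
      rw [← show QC w = QC y from h']; exact mem_QC w)⟩
  exact Set.disjoint_left.1 (h4 _ hB) (mem_QC w) (mem_iInter₂.1 hw _ hB)

theorem thin {ε : ℝ} (h : (Big X ε).Finite) {M : Set X} (hM : IsClopen M) (hne : M.Nonempty)
    (hno : ∀ w ∈ M, ¬ IsClopen (QC w)) :
    ∃ D, IsClopen D ∧ D.Nonempty ∧ D ⊆ M ∧ ∀ w ∈ D, QC w ⊆ ball w ε := by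
  obtain ⟨y, hy⟩ := hne
  obtain ⟨E, h1, h2, h3⟩ := avoid h y
  obtain ⟨v, hv, hv'⟩ : ∃ v ∈ M ∩ E, v ∉ QC y := by
    by_contra h4
    push Not at h4
    apply hno y hy
    rw [show QC y = M ∩ E from Subset.antisymm
      (QC_sub (mem_QC y) (hM.inter h1) ⟨hy, h2 (mem_QC y)⟩) h4]
    exact hM.inter h1
  obtain ⟨E', k1, k2, k3⟩ := QC_out hv'
  exact ⟨(M ∩ E) \ E', (hM.inter h1).diff k1, ⟨v, hv, k3⟩, fun w hw => hw.1.1,
    fun w hw => h3 w hw.1.2 fun h' => hw.2 (k2 h')⟩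

theorem baire [CompleteSpace X] (hK : KP X) (T : Tour X) (hB : ∀ ε > 0, (Big X ε).Finite)
    {M₀ : Set X} (hM : IsClopen M₀) (hne : M₀.Nonempty) (hno : ∀ w ∈ M₀, ¬ IsClopen (QC w))
    {a₀ b₀ : X} {ρ : ℝ} (hρ : 0 < ρ) (ha : Dn (ball a₀ ρ) M₀) (hb : Dn (ball b₀ ρ) M₀) :
    dist a₀ b₀ ≤ 4 * ρ := by
  have hcl : ∀ {E : Set X}, IsClopen E → ∀ x, x ∉ E → ∀ β, IsClopen (E ∩ {y | T.r β x y}) := by
    intro E hE x hx β
    cases β
    · simpa [Tour.r] using T.rev.clopen_out hE hx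
    · simpa [Tour.r] using T.clopen_out hE hx
  let r : ℕ → ℝ := fun n => ρ * (1 / 2) ^ n
  have hr : ∀ n, 0 < r n := fun n => by positivity
  let St : ℕ → Type u := fun n => {s : Set X × X × X // IsClopen s.1 ∧ s.1.Nonempty ∧ s.1 ⊆ M₀ ∧
    Dn (ball s.2.1 (r n)) s.1 ∧ Dn (ball s.2.2 (r n)) s.1}
  have step : ∀ n (s : St n) (β : Bool), ∃ s' : St (n + 1), ∃ t, s'.1.1 ⊆ s.1.1 ∧
      s'.1.2.1 ∈ ball s.1.2.1 (r n) ∧ s'.1.2.2 ∈ ball s.1.2.2 (r n) ∧ s'.1.2.2 ∈ s'.1.1 ∧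
      t ∈ ball s.1.2.1 (r n) ∧ ∀ y ∈ s'.1.1, T.r β t y := by
    rintro n ⟨⟨M, a, b⟩, h1, h2, h3, h4, h5⟩ β
    obtain ⟨D, k1, k2, k3, k4⟩ := thin (hB _ (hr (n + 1))) h1 h2 (fun w hw => hno w (h3 hw))
    obtain ⟨u, hu, hu'⟩ := h4 D k1 k2 k3
    obtain ⟨w, hw, hw'⟩ : ∃ w ∈ D, w ∉ QC u := by
      by_contra h6
      push Not at h6
      apply hno u (h3 (k3 hu))
      rw [show QC u = D from Subset.antisymm (QC_sub (mem_QC u) k1 hu) h6]
      exact k1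
    obtain ⟨E, e1, e2, e3⟩ := QC_out hw'
    obtain ⟨u', hv, hv'⟩ := h4 (D \ E) (k1.diff e1) ⟨w, hw, e3⟩ (sdiff_subset.trans k3)
    obtain ⟨t, a', E', f1, f2, f3, f4, f5, f6, f7⟩ : ∃ t a' E', IsClopen E' ∧ a' ∈ E' ∧ t ∉ E' ∧
        a' ∈ D ∧ t ∈ ball a (r n) ∧ a' ∈ ball a (r n) ∧ T.r β t a' := by
      have hne : u ≠ u' := fun h => hv.2 (h ▸ e2 (mem_QC u))
      obtain ⟨γ, hγ⟩ := T.r_exists hne
      by_cases h : γ = β
      · exact ⟨u, u', Eᶜ, e1.compl, hv.2, fun h' => h' (e2 (mem_QC u)), hv.1, hu', hv', h ▸ hγ⟩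
      · refine ⟨u', u, E, e1, e2 (mem_QC u), hv.2, hu, hv', hu', ?_⟩
        cases β <;> cases γ
        · exact absurd rfl h
        · simpa [Tour.r] using hγ
        · simpa [Tour.r] using hγ
        · exact absurd rfl h
    obtain ⟨Ka, g1, g2, g3⟩ := dn_full hK T a' isOpen_ball (k4 a' f4)
    have hM2 : IsClopen (((D ∩ E') ∩ {y | T.r β t y}) ∩ Ka) :=
      (hcl (k1.inter f1) t (fun h => f3 h.2) β).inter g1
    obtain ⟨b', hb1, hb2⟩ := h5 _ hM2 ⟨a', ⟨⟨f4, f2⟩, f7⟩, g2⟩ (fun y hy => k3 hy.1.1.1)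
    obtain ⟨Kb, l1, l2, l3⟩ := dn_full hK T b' isOpen_ball (k4 b' hb1.1.1.1)
    exact ⟨⟨⟨(((D ∩ E') ∩ {y | T.r β t y}) ∩ Ka) ∩ Kb, a', b'⟩, hM2.inter l1, ⟨b', hb1, l2⟩,
      fun y hy => h3 (k3 hy.1.1.1.1), g3.mono fun y hy => hy.1.2, l3.mono fun y hy => hy.2⟩, t,
      fun y hy => k3 hy.1.1.1.1, f6, hb2, ⟨hb1, l2⟩, f5, fun y hy => hy.1.1.2⟩
  choose nx t h1 h2 h3 h4 h5 h6 using step
  let β : ℕ → Bool := fun n => decide (Even n)
  let s : (n : ℕ) → St n := fun n => Nat.rec (motive := St)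
    ⟨⟨M₀, a₀, b₀⟩, hM, hne, Subset.rfl, by simpa [r] using ha, by simpa [r] using hb⟩
    (fun n s => nx n s (β n)) n
  have hs : ∀ n, s (n + 1) = nx n (s n) (β n) := fun n => rfl
  have hsa : ∀ n k, n ≤ k → (s k).1.1 ⊆ (s n).1.1 := by
    intro n k hnk
    induction k, hnk using Nat.le_induction with
    | base => exact Subset.rfl
    | succ k _ ih => rw [hs]; exact (h1 _ _ _).trans ih
  have hda : ∀ n, dist (s n).1.2.1 (s (n + 1)).1.2.1 ≤ ρ * (1 / 2) ^ n := fun n =>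
    (mem_ball'.1 (h2 n (s n) (β n))).le
  have hdb : ∀ n, dist (s n).1.2.2 (s (n + 1)).1.2.2 ≤ ρ * (1 / 2) ^ n := fun n =>
    (mem_ball'.1 (h3 n (s n) (β n))).le
  obtain ⟨a, hla⟩ := cauchySeq_tendsto_of_complete
    (cauchySeq_of_le_geometric (1 / 2) ρ (by norm_num) hda)
  obtain ⟨b, hlb⟩ := cauchySeq_tendsto_of_complete
    (cauchySeq_of_le_geometric (1 / 2) ρ (by norm_num) hdb)
  have ea := dist_le_of_le_geometric_of_tendsto₀ (1 / 2) ρ (by norm_num) hda hla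
  have eb := dist_le_of_le_geometric_of_tendsto₀ (1 / 2) ρ (by norm_num) hdb hlb
  have hbM : ∀ n, b ∈ (s n).1.1 := by
    intro n
    refine (s n).2.1.isClosed.mem_of_tendsto (hlb.comp (tendsto_add_atTop_nat 1)) ?_
    filter_upwards [eventually_ge_atTop n] with k hk
    exact hsa n (k + 1) (by omega) (h4 k (s k) (β k))
  have hta : Tendsto (fun n => t n (s n) (β n)) atTop (𝓝 a) := by
    refine hla.congr_dist (squeeze_zero (fun _ => dist_nonneg)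
      (fun n => (mem_ball'.1 (h5 n (s n) (β n))).le) ?_)
    simpa [r] using (tendsto_pow_atTop_nhds_zero_of_lt_one (r := (1 / 2 : ℝ)) (by norm_num)
      (by norm_num)).const_mul ρ
  have hab : a = b := by
    by_contra hab
    obtain ⟨δ, hδ⟩ := T.r_exists hab
    obtain ⟨U, V, hU, -, k1, k2, H⟩ := T.r_opn hδ
    obtain ⟨N, hN⟩ := eventually_atTop.1 (hta.eventually (hU.mem_nhds k1))
    have k3 : ∀ n ≥ N, β n = δ := fun n hn =>
      T.r_unique (h6 n (s n) (β n) b (hbM (n + 1))) (H _ (hN n hn) b k2)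
    have := (k3 N le_rfl).trans (k3 (N + 1) (Nat.le_succ N)).symm
    simp only [β, Nat.even_add_one, decide_eq_decide] at this
    exact iff_not_self this
  subst hab
  have e0 : (s 0).1.2.1 = a₀ := rfl
  have e1 : (s 0).1.2.2 = b₀ := rfl
  simp only [e0, e1] at ea eb
  have := dist_triangle_right a₀ b₀ a
  have e2 : ρ / (1 - 1 / 2) = 2 * ρ := by ring
  linarith

theorem small_half [CompleteSpace X] (hK : KP X) (T : Tour X) (hB : ∀ ε > 0, (Big X ε).Finite)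
    {z M : X} (hM : M ∈ QC z) (hmax : ∀ c ∈ QC z, c = M ∨ T.b M c) {W : Set X} (hW : W ∈ 𝓝 M) :
    ∃ K, IsClopen K ∧ QC z ⊆ K ∧ ∀ y ∈ K, T.b y M → y ∈ W := by
  obtain ⟨ε, hε, hεW⟩ := Metric.mem_nhds_iff.1 hW
  have hρ : 0 < ε / 5 := by positivity
  obtain ⟨K, k1, k2, k3⟩ := dn_half hK T hM hmax (ball_mem_nhds M hρ)
  obtain ⟨E, e1, e2, e3⟩ := avoid (hB _ hρ) z
  refine ⟨K ∩ E, k1.inter e1, subset_inter k2 e2, fun y hy hyM => ?_⟩
  by_contra hyW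
  have hd : ε ≤ dist M y := by
    by_contra h
    exact hyW (hεW (mem_ball'.2 (not_le.1 h)))
  have hQ : ∀ y, T.b y M → y ∉ QC z := by
    intro y h hy
    rcases hmax y hy with rfl | h'
    · exact T.irr _ h
    · exact T.asym _ _ h h'
  obtain ⟨Ky, g1, g2, g3⟩ := dn_full hK T y isOpen_ball (e3 y hy.2 (hQ y hyM))
  obtain ⟨E', f1, f2, f3⟩ := QC_out (hQ y hyM)
  have hM0 : IsClopen ((((K ∩ E) ∩ Ky) \ E') ∩ {w | T.b w M}) :=
    T.rev.clopen_out (((k1.inter e1).inter g1).diff f1) fun h => h.2 (f2 hM)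
  have d1 : Dn (ball M (ε / 5)) ((((K ∩ E) ∩ Ky) \ E') ∩ {w | T.b w M}) :=
    k3.mono fun w hw => ⟨hw.1.1.1.1, hw.2⟩
  have d2 : Dn (ball y (ε / 5)) ((((K ∩ E) ∩ Ky) \ E') ∩ {w | T.b w M}) :=
    g3.mono fun w hw => hw.1.1.2
  have := baire hK T hB hM0 ⟨y, ⟨⟨hy, g2⟩, f3⟩, hyM⟩ (fun w hw hc => by
    obtain ⟨p, hp, hp'⟩ := d1 _ hc ⟨w, mem_QC w⟩ (QC_sub (mem_QC w) hM0 hw)
    obtain ⟨q, hq, hq'⟩ := d2 _ hc ⟨w, mem_QC w⟩ (QC_sub (mem_QC w) hM0 hw)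
    have h1 := mem_ball.1 (e3 w hw.1.1.1.2 (hQ w hw.2) hp)
    have h2 := mem_ball.1 (e3 w hw.1.1.1.2 (hQ w hw.2) hq)
    have h3 := mem_ball'.1 hp'
    have h4 := mem_ball.1 hq'
    have h5 := dist_triangle4 M p q y
    have h6 := dist_triangle_right p q w
    linarith) hρ d1 d2
  linarith

theorem compact_of_null [CompleteSpace X] (hK : KP X) (T : Tour X)
    (hC : ∀ z : X, IsCompact (QC z)) (hB : ∀ ε > 0, (Big X ε).Finite) : CompactSpace X := by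
  refine compact_of_nf hK T (nf_of_compact hK T hC fun z W hW hzW => ?_)
  obtain ⟨M, hM, hMmax⟩ := QC_max hK T z
  obtain ⟨m, hm, hmmin⟩ := QC_max hK T.rev z
  obtain ⟨K1, a1, a2, a3⟩ := small_half hK T hB hM hMmax (hW.mem_nhds (hzW hM))
  obtain ⟨K2, b1, b2, b3⟩ := small_half hK T.rev hB hm hmmin (hW.mem_nhds (hzW hm))
  refine ⟨K1 ∩ K2, a1.inter b1, subset_inter a2 b2, fun y hy => ?_⟩
  by_cases h : y ∈ QC z
  · exact hzW h
  rcases T.tot y M (fun h' => h (h' ▸ hM)) with h1 | h1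
  · exact a3 y hy.1 h1
  · exact b3 y hy.2 (T.rev.unif h hM hm h1)

theorem null_of_compact [CompactSpace X] (T : Tour X) {ε : ℝ} (hε : 0 < ε) :
    (Big X ε).Finite := by
  by_contra hinf
  have hinf' : (Big X ε).Infinite := hinf
  let e := hinf'.natEmbedding
  choose x hx using fun n => (e n).2.1
  choose a ha b hb hab using fun n => (e n).2.2
  have hne : ∀ n m, n ≠ m → ∀ y ∈ QC (x n), y ∉ QC (x m) := by
    intro n m h y h1 h2
    apply h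
    apply e.injective
    apply Subtype.ext
    rw [hx, hx, ← QC_eq h1, QC_eq h2]
  have hall : ∀ n m, n ≠ m → T.b (x n) (x m) → ∀ s ∈ QC (x n), ∀ t ∈ QC (x m), T.b s t := by
    intro n m h h1 s hs t ht
    exact T.rev.unif (hne m n h.symm t ht) (mem_QC _) hs
      (T.unif (hne n m h _ (mem_QC _)) (mem_QC _) ht h1)
  obtain ⟨φ, hφ, H⟩ := ramsey_nat (fun n m => T.b (x n) (x m))
  obtain ⟨γ, hγ⟩ : ∃ γ : Bool, ∀ n m, True → True → n < m →
      ∀ s ∈ QC (x (φ n)), ∀ t ∈ QC (x (φ m)), T.r γ s t := by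
    rcases H with H | H
    · exact ⟨true, fun n m _ _ h s hs t ht => by
        simpa [Tour.r] using hall _ _ (hφ h).ne (H n m h) s hs t ht⟩
    · refine ⟨false, fun n m _ _ h s hs t ht => ?_⟩
      have h1 : x (φ n) ≠ x (φ m) := fun h1 => hne _ _ (hφ h).ne _ (mem_QC _) (h1 ▸ mem_QC _)
      simpa [Tour.r] using hall _ _ (hφ h).ne' (T.of_not h1 (H n m h)) t ht s hs
  obtain ⟨⟨p, q⟩, -, ψ, hψ, hlim⟩ := isCompact_univ.tendsto_subseq
    (x := fun n => (a (φ n), b (φ n))) (fun n => mem_univ _)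
  have hp : Tendsto (fun n => a (φ (ψ n))) atTop (𝓝 p) := (continuous_fst.tendsto _).comp hlim
  have hq : Tendsto (fun n => b (φ (ψ n))) atTop (𝓝 q) := (continuous_snd.tendsto _).comp hlim
  have hcl : ∀ (c : ℕ → X) (w : X), (∀ n, c n ∈ (e n).1) →
      Tendsto (fun n => c (φ (ψ n))) atTop (𝓝 w) →
      Clus (fun _ => True) (fun n => QC (x (φ n))) w := fun c w hc hw =>
    clus_of_sub (V := fun n => QC (x (φ n))) hψ (fun _ => trivial) fun O hO =>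
      (hw.eventually hO).frequently.mono fun n hn => ⟨trivial, _, hn, by
        have := hc (φ (ψ n))
        rwa [hx] at this⟩
  have h1 := clus_unique' T γ hγ (hcl a p ha hp) (hcl b q hb hq)
  have h2 : ε ≤ dist p q := ge_of_tendsto' (hp.dist hq) fun n => hab _
  rw [h1, dist_self] at h2
  linarith

end Pool.Agent.P.MP_abcfaf_gt.R
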