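import Pool.Agent.P.MP_abcfaf_gt.R.Seq

open Set Filter Topology

namespace Pool.Agent.P.MP_abcfaf_gt.R

open Pool.Agent.P.MP_abcfaf_gt

universe u

variable {X : Type u} [TopologicalSpace X]

/-- The topology is generated by clopen sets and intervals with ends in the component. -/
def NF (T : Tour X) : Prop :=
  ∀ z : X, ∀ c ∈ QC z, ∀ N ∈ 𝓝 c,
    ∃ E Up Lo : Set X, IsClopen E ∧ QC z ⊆ E ∧ IsOpen Up ∧ IsOpen Lo ∧ c ∈ Up ∧ c ∈ Lo ∧
      (Up = univ ∨ ∃ d ∈ QC z, T.b d c ∧ Up = {y | T.b d y}) ∧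
      (Lo = univ ∨ ∃ d ∈ QC z, T.b c d ∧ Lo = {y | T.b y d}) ∧ E ∩ Up ∩ Lo ⊆ N

/-- An ideal of sets that contains a neighbourhood of each point. -/
structure Idl (X : Type u) [TopologicalSpace X] where
  S : Set X → Prop
  mono : ∀ {A B}, A ⊆ B → S B → S A
  union : ∀ {A B}, S A → S B → S (A ∪ B)
  loc : ∀ x, ∃ U ∈ 𝓝 x, S U

theorem nf_small {T : Tour X} (hNF : NF T) (I : Idl X) {z c : X} (hc : c ∈ QC z) :
    ∃ E Up Lo : Set X, IsClopen E ∧ QC z ⊆ E ∧ IsOpen Up ∧ IsOpen Lo ∧ c ∈ Up ∧ c ∈ Lo ∧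
      (Up = univ ∨ ∃ d ∈ QC z, T.b d c ∧ Up = {y | T.b d y}) ∧
      (Lo = univ ∨ ∃ d ∈ QC z, T.b c d ∧ Lo = {y | T.b y d}) ∧ I.S (E ∩ Up ∩ Lo) := by
  obtain ⟨U, hU, hS⟩ := I.loc c
  obtain ⟨E, Up, Lo, h1, h2, h3, h4, h5, h6, h7, h8, h9⟩ := hNF z c hc U hU
  exact ⟨E, Up, Lo, h1, h2, h3, h4, h5, h6, h7, h8, I.mono h9 hS⟩

theorem small_clopen' (hK : KP X) (T : Tour X) (hNF : NF T) (I : Idl X) (z : X) :
    ∃ K, IsClopen K ∧ z ∈ K ∧ I.S K := by
  obtain ⟨M, hM, hMmax⟩ := QC_max hK T z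
  obtain ⟨m, hm, hmmin⟩ := QC_max hK T.rev z
  let good : X → Prop := fun c => ∃ E, IsClopen E ∧ QC z ⊆ E ∧ I.S (E ∩ {y | y = c ∨ T.b c y})
  have gdown : ∀ e ∈ QC z, ∀ e' ∈ QC z, good e → T.b e e' → good e' := by
    rintro e he e' he' ⟨E, h1, h2, h3⟩ h
    refine ⟨E, h1, h2, I.mono ?_ h3⟩
    rintro y ⟨h4, rfl | h5⟩
    · exact ⟨h4, Or.inr h⟩
    · exact ⟨h4, Or.inr (T.tr1 he he' h h5)⟩
  have star : ∀ c ∈ QC z, ∃ J : Set X, IsOpen J ∧ c ∈ J ∧ ∃ pp : Prop,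
      (∀ e ∈ QC z, e ∈ J → (good e ↔ pp)) ∧ ((∀ d ∈ QC z, ¬ T.b c d) → pp) := by
    intro c hc
    obtain ⟨E, Up, Lo, h1, h2, h3, h4, h5, h6, h7, h8, h9⟩ := nf_small hNF I hc
    have hUp : ∀ e ∈ QC z, e ∈ Up → ∀ y, (y = e ∨ T.b e y) → y ∈ Up := by
      intro e he heU y hy
      rcases h7 with rfl | ⟨d, hd, -, rfl⟩
      · trivial
      · rcases hy with rfl | hy
        · exact heU
        · exact T.tr1 hd he heU hy
    rcases h8 with rfl | ⟨d, hd, hcd, rfl⟩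
    · refine ⟨Up, h3, h5, True, fun e he heU => ⟨fun _ => trivial, fun _ => ?_⟩, fun _ => trivial⟩
      refine ⟨E, h1, h2, I.mono ?_ h9⟩
      exact fun y hy => ⟨⟨hy.1, hUp e he heU y hy.2⟩, trivial⟩
    · refine ⟨Up ∩ {y | T.b y d}, h3.inter h4, ⟨h5, h6⟩, good d,
        fun e he heU => ⟨fun hg => gdown e he d hd hg heU.2, ?_⟩, fun h => absurd hcd (h d hd)⟩
      rintro ⟨E2, k1, k2, k3⟩
      refine ⟨E ∩ E2, h1.inter k1, subset_inter h2 k2, I.mono ?_ (I.union h9 k3)⟩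
      rintro y ⟨⟨hy1, hy2⟩, hy3⟩
      by_cases hyd : T.b y d
      · exact Or.inl ⟨⟨hy1, hUp e he heU.1 y hy3⟩, hyd⟩
      · refine Or.inr ⟨hy2, ?_⟩
        by_cases hyd' : y = d
        · exact Or.inl hyd'
        · exact Or.inr (T.of_not hyd' hyd)
  have gm : good m := by
    obtain ⟨J, -, h2, pp, h3, h4⟩ := star m hm
    rw [h3 m hm h2]
    apply h4
    intro d hd hb
    rcases hmmin d hd with rfl | h
    · exact T.irr _ hb
    · exact T.asym _ _ hb h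
  have gM : good M := by
    by_contra hM'
    let Ts : Set X := {y | (y ∈ QC z ∧ good y) ∨ (y ∉ QC z ∧ T.b z y)}
    have hT : IsClopen Ts := by
      have hlc : ∀ y, ∀ᶠ w in 𝓝 y, (w ∈ Ts ↔ y ∈ Ts) := by
        intro y
        by_cases hy : y ∈ QC z
        · obtain ⟨J, h1, h2, pp, h3, -⟩ := star y hy
          by_cases hg : good y
          · have hMy : T.b M y := by
              rcases hMmax y hy with rfl | h
              · exact absurd hg hM'
              · exact h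
            filter_upwards [h1.mem_nhds h2, (T.isOpen_out M).mem_nhds hMy] with w hw hw'
            refine ⟨fun _ => Or.inl ⟨hy, hg⟩, fun _ => ?_⟩
            by_cases hwQ : w ∈ QC z
            · exact Or.inl ⟨hwQ, (h3 w hwQ hw).2 ((h3 y hy h2).1 hg)⟩
            · exact Or.inr ⟨hwQ, T.rev.unif hwQ hM (mem_QC z) hw'⟩
          · have hym : T.b y m := by
              rcases hmmin y hy with rfl | h
              · exact absurd gm hg
              · exact h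
            filter_upwards [h1.mem_nhds h2, (T.isOpen_in m).mem_nhds hym] with w hw hw'
            constructor
            · rintro (⟨hwQ, hwg⟩ | ⟨hwQ, hwb⟩)
              · exact absurd ((h3 y hy h2).2 ((h3 w hwQ hw).1 hwg)) hg
              · exact absurd (T.unif hwQ hm (mem_QC z) hw') (T.asym _ _ hwb)
            · rintro (⟨-, h⟩ | ⟨h, -⟩)
              · exact absurd h hg
              · exact absurd hy h
        · obtain ⟨E, h1, h2, h3⟩ := QC_out hy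
          have hyz : z ≠ y := fun h => hy (h ▸ mem_QC z)
          rcases T.tot z y hyz with h | h
          · filter_upwards [h1.compl.isOpen.mem_nhds h3, (T.isOpen_out z).mem_nhds h] with w hw hw'
            exact ⟨fun _ => Or.inr ⟨hy, h⟩, fun _ => Or.inr ⟨fun h4 => hw (h2 h4), hw'⟩⟩
          · filter_upwards [h1.compl.isOpen.mem_nhds h3, (T.isOpen_in z).mem_nhds h] with w hw hw'
            constructor
            · rintro (⟨h4, -⟩ | ⟨-, h4⟩)
              · exact absurd (h2 h4) hw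
              · exact absurd h4 (T.asym _ _ hw')
            · rintro (⟨h4, -⟩ | ⟨-, h4⟩)
              · exact absurd h4 hy
              · exact absurd h4 (T.asym _ _ h)
      constructor
      · rw [← isOpen_compl_iff, isOpen_iff_mem_nhds]
        intro y hy
        filter_upwards [hlc y] with w hw
        exact fun h => hy (hw.1 h)
      · rw [isOpen_iff_mem_nhds]
        intro y hy
        filter_upwards [hlc y] with w hw
        exact hw.2 hy
    rcases QC_sub hm hT (Or.inl ⟨hm, gm⟩) hM with h | h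
    · exact hM' h.2
    · exact h.1 hM
  obtain ⟨E2, k1, k2, k3⟩ := gM
  obtain ⟨E, Up, Lo, h1, h2, -, -, -, -, h7, h8, h9⟩ := nf_small hNF I hM
  refine ⟨E ∩ E2, h1.inter k1, ⟨h2 (mem_QC z), k2 (mem_QC z)⟩, I.mono ?_ (I.union h9 k3)⟩
  rintro y ⟨hy1, hy2⟩
  by_cases hy : y = M ∨ T.b M y
  · exact Or.inr ⟨hy2, hy⟩
  · push Not at hy
    have hyM : T.b y M := T.of_not (Ne.symm hy.1) hy.2
    refine Or.inl ⟨⟨hy1, ?_⟩, ?_⟩
    · rcases h7 with rfl | ⟨d, hd, hdM, -⟩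
      · trivial
      · rcases hMmax d hd with rfl | h
        · exact absurd hdM (T.irr _)
        · exact absurd hdM (T.asym _ _ h)
    · rcases h8 with rfl | ⟨d, hd, hMd, rfl⟩
      · trivial
      · exact T.tr2 hM hd hyM hMd

/-- Clopen rectangles. -/
theorem clopen_rect (hK : KP X) (T : Tour X) (hNF : NF T) {P : Set X} (hP : IsClopen P) {v p : X}
    (hv : v ∈ P) (hp : p ∉ P) : ∃ γ O₁ O₂, IsClopen O₁ ∧ IsClopen O₂ ∧ v ∈ O₁ ∧ p ∈ O₂ ∧
      ∀ x ∈ O₁, ∀ y ∈ O₂, T.r γ x y := by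
  have hne : ∀ x ∈ P, ∀ y, y ∉ P → x ≠ y := by
    rintro x hx y hy rfl
    exact hy hx
  have hcl : ∀ {E : Set X}, IsClopen E → ∀ x, x ∉ E → ∀ β, IsClopen (E ∩ {y | T.r β x y}) := by
    intro E hE x hx β
    cases β
    · simpa [Tour.r] using T.rev.clopen_out hE hx
    · simpa [Tour.r] using T.clopen_out hE hx
  have hcl' : ∀ {E : Set X}, IsClopen E → ∀ y, y ∉ E → ∀ β, IsClopen (E ∩ {x | T.r β x y}) := by
    intro E hE y hy β
    cases β
    · simpa [Tour.r] using T.clopen_out hE hy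
    · simpa [Tour.r] using T.rev.clopen_out hE hy
  have first : ∀ x ∈ P, ∃ G ∈ 𝓝 x, ∃ S, IsClopen S ∧ p ∈ S ∧
      ∀ g ∈ G, g ∈ P → ∀ y ∈ S, ∀ β, T.r β g p → T.r β g y := by
    intro x hx
    let I : Idl X :=
      { S := fun A => ∃ G ∈ 𝓝 x, ∀ g ∈ G, ∀ y ∈ A, y ∉ P → ∀ β, T.r β x y → T.r β g y
        mono := fun h ⟨G, hG, H⟩ => ⟨G, hG, fun g hg y hy => H g hg y (h hy)⟩
        union := fun ⟨G, hG, H⟩ ⟨G', hG', H'⟩ => ⟨G ∩ G', inter_mem hG hG', fun g hg y hy =>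
          hy.elim (H g hg.1 y) (H' g hg.2 y)⟩
        loc := fun y => by
          by_cases hy : y ∈ P
          · exact ⟨P, hP.isOpen.mem_nhds hy, univ, univ_mem, fun g _ y h h' => absurd h h'⟩
          · obtain ⟨β, hβ⟩ := T.r_exists (hne x hx y hy)
            obtain ⟨U, V, hU, hV, hxU, hyV, H⟩ := T.r_opn hβ
            refine ⟨V, hV.mem_nhds hyV, U, hU.mem_nhds hxU, fun g hg w hw _ δ hδ => ?_⟩
            rw [T.r_unique hδ (H x hxU w hw)]
            exact H g hg w hw }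
    obtain ⟨S, hS, hpS, G, hG, H⟩ := small_clopen' hK T hNF I p
    obtain ⟨β, hβ⟩ := T.r_exists (hne x hx p hp)
    refine ⟨G, hG, (S ∩ Pᶜ) ∩ {y | T.r β x y}, hcl (hS.inter hP.compl) x (fun h => h.2 hx) β,
      ⟨⟨hpS, hp⟩, hβ⟩, fun g hg _ y hy δ hδ => ?_⟩
    rw [T.r_unique hδ (H g hg p hpS hp β hβ)]
    exact H g hg y hy.1.1 hy.1.2 β hy.2
  let J : Idl X :=
    { S := fun A => ∃ S, IsClopen S ∧ p ∈ S ∧
        ∀ g ∈ A, g ∈ P → ∀ y ∈ S, ∀ β, T.r β g p → T.r β g y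
      mono := fun h ⟨S, h1, h2, H⟩ => ⟨S, h1, h2, fun g hg => H g (h hg)⟩
      union := fun ⟨S, h1, h2, H⟩ ⟨S', h1', h2', H'⟩ => ⟨S ∩ S', h1.inter h1', ⟨h2, h2'⟩,
        fun g hg hgP y hy => hg.elim (fun h => H g h hgP y hy.1) (fun h => H' g h hgP y hy.2)⟩
      loc := fun x => by
        by_cases hx : x ∈ P
        · exact first x hx
        · exact ⟨Pᶜ, hP.compl.isOpen.mem_nhds hx, univ, isClopen_univ, trivial,
            fun g h h' => absurd h' h⟩ }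
  obtain ⟨G, hG, hvG, S, hS, hpS, H⟩ := small_clopen' hK T hNF J v
  obtain ⟨β, hβ⟩ := T.r_exists (hne v hv p hp)
  exact ⟨β, (G ∩ P) ∩ {x | T.r β x p}, S, hcl' (hG.inter hP) p (fun h => hp h.2) β, hS,
    ⟨⟨hvG, hv⟩, hβ⟩, hpS, fun x hx y hy => H x hx.1.1 hx.1.2 y hy β hx.2⟩

/-- The clopen subsets of a clopen set form a test family. -/
def clopenTest (hK : KP X) (T : Tour X) (hNF : NF T) {K : Set X} (hKc : IsClopen K) :
    Test T K where
  O G := IsClopen G ∧ G ⊆ K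
  inter h h' := ⟨h.1.inter h'.1, inter_subset_left.trans h.2⟩
  clus G h h' := clopen_clus hK T _ (fun n => (h n).1.inter hKc) h'
  rect G hG v hv p hp hpG := by
    rw [hKc.isClosed.closure_eq] at hp
    obtain ⟨γ, O₁, O₂, h1, h2, h3, h4, H⟩ := clopen_rect hK T hNF hG.1 hv hpG
    exact ⟨γ, O₁ ∩ K, O₂ ∩ K, ⟨h1.inter hKc, inter_subset_right⟩, ⟨h2.inter hKc, inter_subset_right⟩,
      ⟨h3, hG.2 hv⟩, (h2.inter hKc).isOpen.mem_nhds ⟨h4, hp⟩, fun x hx y hy => H x hx.1 y hy.1⟩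
  cut p _ N hN := by
    obtain ⟨E, Up, Lo, h1, h2, h3, h4, h5, h6, h7, h8, h9⟩ := hNF p p (mem_QC p) N hN
    refine ⟨E ∩ Up ∩ Lo, ((h1.isOpen.inter h3).inter h4).mem_nhds ⟨⟨h2 (mem_QC p), h5⟩, h6⟩, h9,
      fun V hV hpV => ⟨?_, sdiff_subset.trans hV.2⟩⟩
    have hQ : ∀ d ∈ QC p, d ∉ V := fun d hd hdV => hpV (QC_sub hd hV.1 hdV (mem_QC p))
    have k1 : IsClopen (V ∩ Up) := by
      rcases h7 with rfl | ⟨d, hd, -, rfl⟩
      · simpa using hV.1
      · exact T.clopen_out hV.1 (hQ d hd)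
    have k2 : IsClopen (V ∩ Lo) := by
      rcases h8 with rfl | ⟨d, hd, -, rfl⟩
      · simpa using hV.1
      · exact T.rev.clopen_out hV.1 (hQ d hd)
    have : V \ (E ∩ Up ∩ Lo) = V \ (E ∩ (V ∩ Up) ∩ (V ∩ Lo)) := by
      ext y
      simp only [Set.mem_sdiff, mem_inter_iff]
      tauto
    rw [this]
    exact hV.1.diff ((h1.inter k1).inter k2)

theorem exists_mod (hK : KP X) (T : Tour X) (hNF : NF T) {K : Set X} (hKc : IsClopen K) {x : X}
    (hx : x ∈ K) : ∃ a, IsClopen a ∧ x ∈ a ∧ a ⊆ K ∧ T.Mod K a := by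
  have hcl : ∀ y, y ∉ K → ∀ G, IsClopen G → G ⊆ K →
      IsClopen (G ∩ {x | T.b x y}) ∧ IsClopen (G ∩ {x | T.b y x}) := fun y hy G hG hGK =>
    ⟨T.rev.clopen_out hG (fun h => hy (hGK h)), T.clopen_out hG (fun h => hy (hGK h))⟩
  have hfin : (trc T Kᶜ '' K).Finite := by
    refine finite_trc (clopenTest hK T hNF hKc) (O₀ := K) ⟨hKc, Subset.rfl⟩ Subset.rfl
      disjoint_compl_right (fun y hy G hG => ⟨⟨(hcl y hy G hG.1 hG.2).1,
        inter_subset_left.trans hG.2⟩, (hcl y hy G hG.1 hG.2).2, inter_subset_left.trans hG.2⟩) ?_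
    intro b p hb hbp
    have hpK : p ∈ K := hKc.isClosed.mem_of_tendsto hbp (Eventually.of_forall hb)
    by_contra hno
    obtain ⟨ψ, hψ, h1⟩ := extraction_of_frequently_atTop (not_eventually.1 hno)
    let E : ℕ → Set X := fun k => symmDiff (trc T Kᶜ (b (ψ k))) (trc T Kᶜ p)
    have htc : ∀ w ∈ K, IsClopen (trc T Kᶜ w) := fun w hw =>
      T.clopen_out hKc.compl (fun h => h hw)
    obtain ⟨q, hq⟩ := clopen_clus hK T E (fun k =>
      ((htc _ (hb _)).diff (htc p hpK)).union ((htc p hpK).diff (htc _ (hb _))))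
      (fun k => by
        rw [nonempty_iff_ne_empty]
        intro h
        exact h1 k (symmDiff_eq_bot.1 h))
    have hqK : q ∈ closure Kᶜ := hq.mem_closure (fun k _ y hy => hy.elim (·.1.1) (·.1.1))
    rw [hKc.compl.isClosed.closure_eq] at hqK
    have := noclus T (hbp.comp hψ.tendsto_atTop) (E := E) (fun k y hy h => by
      rcases hy with hy | hy
      · exact hy.2 ⟨hy.1.1, h.1 hy.1.2⟩
      · exact hy.2 ⟨hy.1.1, h.2 hy.1.2⟩) hq
    exact hqK (this ▸ hpK)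
  have hfib : ∀ v : Set X, IsClosed (K ∩ {w | trc T Kᶜ w = v}) := by
    intro v
    rw [← isOpen_compl_iff, isOpen_iff_mem_nhds]
    intro w hw
    by_cases hwK : w ∈ K
    · have h1 : trc T Kᶜ w ≠ v := fun h => hw ⟨hwK, h⟩
      by_cases h2 : trc T Kᶜ w ⊆ v
      · obtain ⟨y, hy, hy'⟩ := not_subset.1 (fun h => h1 (h2.antisymm h))
        by_cases hyK : y ∈ K
        · exact mem_of_superset univ_mem fun w' _ h => (show y ∈ trc T Kᶜ w' from h.2 ▸ hy).1 hyK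
        · have h3 : T.b y w := T.of_not (fun h => hyK (h ▸ hwK)) (fun h => hy' ⟨hyK, h⟩)
          filter_upwards [(T.isOpen_out y).mem_nhds h3] with w' hw' h
          exact T.asym _ _ hw' (show y ∈ trc T Kᶜ w' from h.2 ▸ hy).2
      · obtain ⟨y, hy, hy'⟩ := not_subset.1 h2
        filter_upwards [(T.isOpen_in y).mem_nhds hy.2] with w' hw' h
        exact hy' (h.2 ▸ (show y ∈ trc T Kᶜ w' from ⟨hy.1, hw'⟩))
    · filter_upwards [hKc.compl.isOpen.mem_nhds hwK] with w' hw' h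
      exact hw' h.1
  refine ⟨K ∩ {w | trc T Kᶜ w = trc T Kᶜ x}, ⟨hfib _, ?_⟩, ⟨hx, rfl⟩, inter_subset_left, ?_⟩
  · have : K ∩ {w | trc T Kᶜ w = trc T Kᶜ x} =
        K \ ⋃ v ∈ (trc T Kᶜ '' K) \ {trc T Kᶜ x}, K ∩ {w | trc T Kᶜ w = v} := by
      ext w
      simp only [mem_inter_iff, mem_ofPred_eq, Set.mem_sdiff, mem_iUnion, mem_singleton_iff]
      constructor
      · rintro ⟨h1, h2⟩
        refine ⟨h1, ?_⟩
        rintro ⟨v, ⟨-, h3⟩, -, h4⟩
        exact h3 (h4.symm.trans h2)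
      · rintro ⟨h1, h2⟩
        refine ⟨h1, ?_⟩
        by_contra h3
        exact h2 ⟨_, ⟨mem_image_of_mem _ h1, h3⟩, h1, rfl⟩
    rw [this]
    exact hKc.isOpen.sdiff ((hfin.subset sdiff_subset).isClosed_biUnion fun v _ => hfib v)
  · intro y hy w hw w' hw' h
    refine T.of_not (fun h' => hy (h' ▸ hw'.1)) (fun h' => ?_)
    have h1 : y ∈ trc T Kᶜ w' := ⟨hy, h'⟩
    rw [hw'.2, ← hw.2] at h1
    exact T.asym _ _ h h1.2

theorem fc_of_nf (hP : KP X) (T : Tour X) (hNF : NF T) : FC (univ : Set X) := by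
  intro V hV hne _
  by_contra hno
  push Not at hno
  let I : Idl X :=
    { S := fun A => ∀ᶠ n in atTop, ¬ (A ∩ V n).Nonempty
      mono := fun h H => H.mono fun n hn h' => hn (h'.mono (inter_subset_inter_left _ h))
      union := fun H H' => (H.and H').mono fun n hn ⟨y, hy, hy'⟩ =>
        hy.elim (fun h => hn.1 ⟨y, h, hy'⟩) (fun h => hn.2 ⟨y, h, hy'⟩)
      loc := fun x => by
        have h1 := hno x
        simp only [Clus, not_forall, not_frequently] at h1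
        obtain ⟨O, hO, hN⟩ := h1
        exact ⟨O, hO, hN.mono fun n hn h => hn ⟨trivial, h⟩⟩ }
  have hcl : ∀ x : X, ∃ K, IsClopen K ∧ x ∈ K ∧ I.S K := small_clopen' hP T hNF I
  let W := {L : Set X // IsClopen L ∧ I.S L}
  have step : ∀ (k : ℕ) (L : W), ∃ K : W, Disjoint L.1 K.1 ∧ ∃ n, k ≤ n ∧ (K.1 ∩ V n).Nonempty := by
    rintro k ⟨L, h1, h2⟩
    obtain ⟨n, hn, hn'⟩ := (Eventually.and h2 (eventually_ge_atTop k)).exists
    obtain ⟨x, hx⟩ := hne n
    obtain ⟨K, k1, k2, k3⟩ := hcl x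
    exact ⟨⟨K \ L, k1.diff h1, I.mono sdiff_subset k3⟩, disjoint_sdiff_right, n, hn',
      x, ⟨k2, fun h => hn ⟨x, h, hx⟩⟩, hx⟩
  choose nx h1 idx h2 h3 using step
  let L : ℕ → W := fun n => Nat.rec ⟨∅, isClopen_empty, Eventually.of_forall fun n => by simp⟩
    (fun k A => ⟨A.1 ∪ (nx k A).1, A.2.1.union (nx k A).2.1, I.union A.2.2 (nx k A).2.2⟩) n
  have hLs : ∀ n, (L (n + 1)).1 = (L n).1 ∪ (nx n (L n)).1 := fun n => rfl
  have hLa : ∀ n m, n ≤ m → (L n).1 ⊆ (L m).1 := by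
    intro n m hnm
    induction m, hnm using Nat.le_induction with
    | base => exact Subset.rfl
    | succ m _ ih => rw [hLs]; exact ih.trans subset_union_left
  let K : ℕ → Set X := fun n => (nx n (L n)).1
  have hlt : ∀ n m, n < m → Disjoint (K n) (K m) := by
    intro n m h
    refine (h1 m (L m)).mono_left ?_
    exact subset_union_right.trans ((hLs n).symm.subset.trans (hLa _ _ h))
  have hd : ∀ n m, n ≠ m → Disjoint (K n) (K m) := by
    intro n m h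
    rcases lt_or_gt_of_ne h with h | h
    · exact hlt n m h
    · exact (hlt m n h).symm
  choose x hx using fun n => h3 n (L n)
  choose a ha1 ha2 ha3 ha4 using fun n => exists_mod hP T hNF (nx n (L n)).2.1 (hx n).1
  obtain ⟨p, hp⟩ := mono_lemma hP T K a hd ha3 ha1 (fun n => ⟨x n, ha2 n⟩) ha4
  obtain ⟨K0, k1, k2, k3⟩ := hcl p
  obtain ⟨N, hN⟩ := eventually_atTop.1 k3
  obtain ⟨j, hj, hj'⟩ := frequently_atTop.1 (hp K0 k1 k2) N
  exact hN (idx j (L j)) (hj.trans (h2 _ _)) ⟨x j, hj' (ha2 j), (hx j).2⟩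

theorem compact_of_nf [RegularSpace X] (hP : KP X) (T : Tour X) (hNF : NF T) : CompactSpace X :=
  compact_of_kp hP T fun _ => ⟨univ, isOpen_univ, trivial, fc_of_nf hP T hNF⟩

end Pool.Agent.P.MP_abcfaf_gt.R
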