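import Pool.Agent.P.MP_abcfaf_gt.Main

open Set Filter Topology

namespace Pool.Agent.P.MP_abcfaf_gt.R

open Pool.Agent.P.MP_abcfaf_gt

universe u

variable {X : Type u} [TopologicalSpace X]

/-- Every sequence of nonempty clopen sets has a cluster point. -/
theorem clopen_clus (hK : KP X) (T : Tour X) (a : ℕ → Set X) (hc : ∀ n, IsClopen (a n))
    (hne : ∀ n, (a n).Nonempty) : ∃ p, Clus (fun _ => True) a p := by
  by_contra hno
  push Not at hno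
  have hev : ∀ x : X, ∃ O ∈ 𝓝 x, ∃ N, ∀ n ≥ N, ¬ (O ∩ a n).Nonempty := by
    intro x
    have h1 := hno x
    simp only [Clus, not_forall, not_frequently, eventually_atTop] at h1
    obtain ⟨O, hO, N, hN⟩ := h1
    exact ⟨O, hO, N, fun n hn h => hN n hn ⟨trivial, h⟩⟩
  have hl : IsLocallyConstant (fun x => {n | x ∈ a n}) := by
    rw [IsLocallyConstant.iff_eventually_eq]
    intro x
    obtain ⟨O, hO, N, hN⟩ := hev x
    have h2 : ∀ᶠ y in 𝓝 x, ∀ n ∈ Finset.range N, (y ∈ a n ↔ x ∈ a n) := by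
      rw [eventually_all_finset]
      intro n _
      by_cases hx : x ∈ a n
      · filter_upwards [(hc n).isOpen.mem_nhds hx] with y hy
        simp [hx, hy]
      · filter_upwards [(hc n).compl.isOpen.mem_nhds hx] with y hy
        have : y ∉ a n := hy
        simp [hx, this]
    filter_upwards [h2, hO] with y hy hyO
    ext n
    simp only [mem_ofPred_eq]
    by_cases hn : n < N
    · exact hy n (Finset.mem_range.2 hn)
    · have := hN n (by omega)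
      exact ⟨fun h => absurd ⟨y, hyO, h⟩ this, fun h => absurd ⟨x, mem_of_mem_nhds hO, h⟩ this⟩
  have hf := finite_range hK T _ hl
  have hfin : (⋃ s ∈ range (fun x => {n | x ∈ a n}), s).Finite := by
    refine hf.biUnion ?_
    rintro _ ⟨x, rfl⟩
    obtain ⟨O, hO, N, hN⟩ := hev x
    refine (Set.finite_lt_nat N).subset fun n hn => ?_
    by_contra h
    exact hN n (by simpa using h) ⟨x, mem_of_mem_nhds hO, hn⟩
  refine Set.infinite_univ (hfin.subset fun n _ => ?_)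
  obtain ⟨x, hx⟩ := hne n
  exact mem_biUnion (mem_range_self x) hx

theorem r_iff (T : Tour X) {β : Bool} {x x' y : X} (h : T.r β x y) (h' : T.r β x' y) :
    T.b x y ↔ T.b x' y := by
  cases β
  · simp only [Tour.r, Bool.false_eq_true, if_false] at h h'
    exact ⟨fun k => absurd k (T.asym _ _ h), fun k => absurd k (T.asym _ _ h')⟩
  · simp only [Tour.r, if_true] at h h'
    exact ⟨fun _ => h', fun _ => h⟩

theorem r_ne (T : Tour X) {β : Bool} {x y : X} (h : T.r β x y) : x ≠ y := by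
  rintro rfl
  cases β <;> exact T.irr x (by simpa [Tour.r] using h)

/-- Sets on which a convergent sequence disagrees with its limit cluster only at the limit. -/
theorem noclus (T : Tour X) {b : ℕ → X} {p q : X} (hb : Tendsto b atTop (𝓝 p)) {E : ℕ → Set X}
    (hE : ∀ k, ∀ y ∈ E k, ¬ (T.b (b k) y ↔ T.b p y)) (hq : Clus (fun _ => True) E q) : q = p := by
  by_contra hne
  obtain ⟨β, hβ⟩ := T.r_exists (Ne.symm hne)
  obtain ⟨U, V, hU, hV, hpU, hqV, H⟩ := T.r_opn hβ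
  obtain ⟨k, ⟨-, y, hy, hy'⟩, hk⟩ :=
    ((hq V (hV.mem_nhds hqV)).and_eventually (hb.eventually (hU.mem_nhds hpU))).exists
  exact hE k y hy' (r_iff T (H _ hk y hy) (H _ hpU y hy))

/-- A family of test sets on a ground set `Y`. -/
structure Test (T : Tour X) (Y : Set X) where
  O : Set X → Prop
  inter : ∀ {A B}, O A → O B → O (A ∩ B)
  clus : ∀ G : ℕ → Set X, (∀ n, O (G n)) → (∀ n, (G n ∩ Y).Nonempty) →
    ∃ p, Clus (fun _ => True) (fun n => G n ∩ Y) p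
  rect : ∀ G, O G → ∀ v ∈ G, ∀ p ∈ closure Y, p ∉ G → ∃ γ O₁ O₂, O O₁ ∧ O O₂ ∧ v ∈ O₁ ∧ O₂ ∈ 𝓝 p ∧
    ∀ x ∈ O₁, ∀ y ∈ O₂, T.r γ x y
  cut : ∀ p ∈ closure Y, ∀ N ∈ 𝓝 p, ∃ U ∈ 𝓝 p, U ⊆ N ∧ ∀ V, O V → p ∉ V → O (V \ U)

theorem Test.clus' {T : Tour X} {Y : Set X} (τ : Test T Y) (G : ℕ → Set X)
    (h : ∃ᶠ n in atTop, τ.O (G n) ∧ (G n ∩ Y).Nonempty) :
    ∃ p, Clus (fun _ => True) (fun n => G n ∩ Y) p := by
  obtain ⟨φ, hφ, h1⟩ := extraction_of_frequently_atTop h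
  obtain ⟨p, hp⟩ := τ.clus (fun n => G (φ n)) (fun n => (h1 n).1) (fun n => (h1 n).2)
  exact ⟨p, clus_of_sub (V := fun n => G n ∩ Y) hφ (fun _ => trivial) hp⟩

theorem mono_seq {T : Tour X} {Y : Set X} (τ : Test T Y) (A : ℕ → Set X) (hA : ∀ n, τ.O (A n))
    (hne : ∀ n, (A n ∩ Y).Nonempty) (hd : ∀ n m, n ≠ m → Disjoint (A n) (A m)) :
    ∃ (φ : ℕ → ℕ) (V : ℕ → Set X) (γ : Bool), StrictMono φ ∧
      (∀ k, τ.O (V k) ∧ V k ⊆ A (φ k) ∧ (V k ∩ Y).Nonempty) ∧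
      ∀ k l, k < l → ∀ x ∈ V k, ∀ y ∈ V l, T.r γ x y := by
  let St := {W : Set X // (∀ G, τ.O G → τ.O (G ∩ W)) ∧ ∃ᶠ m in atTop, (A m ∩ W ∩ Y).Nonempty}
  have step : ∀ s : St × ℕ, ∃ m, ∃ V : Set X, ∃ γ : Bool, ∃ W' : St, s.2 ≤ m ∧ τ.O V ∧
      V ⊆ A m ∩ s.1.1 ∧ (V ∩ Y).Nonempty ∧ W'.1 ⊆ s.1.1 ∧ ∀ x ∈ V, ∀ y ∈ W'.1, T.r γ x y := by
    rintro ⟨⟨W, hW, hfr⟩, N⟩
    obtain ⟨p, hp⟩ := τ.clus' (fun m => A m ∩ W) (hfr.mono fun m hm => ⟨hW _ (hA m), hm⟩)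
    have hpY : p ∈ closure Y := hp.mem_closure (fun n _ => inter_subset_right)
    obtain ⟨m, hm, hmp, v, hv⟩ : ∃ m, N ≤ m ∧ p ∉ A m ∧ (A m ∩ W ∩ Y).Nonempty := by
      obtain ⟨m1, h1, h2⟩ := frequently_atTop.1 hfr N
      obtain ⟨m2, h3, h4⟩ := frequently_atTop.1 hfr (m1 + 1)
      by_cases h5 : p ∈ A m1
      · exact ⟨m2, by omega, Set.disjoint_left.1 (hd m1 m2 (by omega)) h5, h4⟩
      · exact ⟨m1, h1, h5, h2⟩
    obtain ⟨γ, O₁, O₂, k1, k2, k3, k4, H⟩ :=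
      τ.rect (A m ∩ W) (hW _ (hA m)) v hv.1 p hpY (fun h => hmp h.1)
    refine ⟨m, A m ∩ W ∩ O₁, γ, ⟨W ∩ O₂, fun G hG => ?_, ?_⟩, hm, τ.inter (hW _ (hA m)) k1,
      inter_subset_left, ⟨v, ⟨hv.1, k3⟩, hv.2⟩, inter_subset_left,
      fun x hx y hy => H x hx.2 y hy.2⟩
    · rw [← inter_assoc]
      exact τ.inter (hW G hG) k2
    · refine (hp O₂ k4).mono ?_
      rintro n ⟨-, y, h1, ⟨h2, h3⟩, h4⟩
      exact ⟨y, ⟨h2, h3, h1⟩, h4⟩
  choose m V γ nx h1 h2 h3 h4 h5 h6 using step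
  let s0 : St × ℕ := (⟨univ, fun G hG => by simpa using hG,
    Frequently.of_forall fun n => by simpa using hne n⟩, 0)
  let s : ℕ → St × ℕ := fun n => (fun t => (nx t, m t + 1))^[n] s0
  have hs : ∀ n, s (n + 1) = (nx (s n), m (s n) + 1) := fun n => Function.iterate_succ_apply' _ _ _
  have hm : StrictMono fun n => m (s n) := by
    refine strictMono_nat_of_lt_succ fun n => ?_
    have := h1 (s (n + 1))
    rw [hs] at this ⊢
    exact this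
  have hsa : ∀ n k, n ≤ k → (s k).1.1 ⊆ (s n).1.1 := by
    intro n k hnk
    induction k, hnk using Nat.le_induction with
    | base => exact Subset.rfl
    | succ k _ ih => rw [hs]; exact (h5 _).trans ih
  obtain ⟨c, hc⟩ : ∃ c : Bool, ∃ᶠ n in atTop, γ (s n) = c := by
    by_contra hcon
    push Not at hcon
    obtain ⟨n, hn⟩ := (eventually_all.2 hcon).exists
    exact hn _ rfl
  obtain ⟨ψ, hψ, hψ'⟩ := extraction_of_frequently_atTop hc
  refine ⟨fun k => m (s (ψ k)), fun k => V (s (ψ k)), c, hm.comp hψ,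
    fun k => ⟨h2 _, (h3 _).trans inter_subset_left, h4 _⟩, fun k l hkl x hx y hy => ?_⟩
  rw [← hψ' k]
  apply h6 _ x hx y
  have := hsa (ψ k + 1) (ψ l) (hψ hkl) (h3 _ hy).2
  rw [hs] at this
  exact this

theorem conv_seq {T : Tour X} {Y : Set X} (τ : Test T Y) (A : ℕ → Set X) (hA : ∀ n, τ.O (A n))
    (hne : ∀ n, (A n ∩ Y).Nonempty) (hd : ∀ n m, n ≠ m → Disjoint (A n) (A m)) :
    ∃ (φ : ℕ → ℕ) (b : ℕ → X) (p : X), StrictMono φ ∧ (∀ k, b k ∈ A (φ k) ∩ Y) ∧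
      Tendsto b atTop (𝓝 p) := by
  obtain ⟨φ, V, γ, hφ, hV, hmono⟩ := mono_seq τ A hA hne hd
  choose b hb using fun k => (hV k).2.2
  obtain ⟨p, hp⟩ := τ.clus V (fun k => (hV k).1) (fun k => (hV k).2.2)
  have hpY : p ∈ closure Y := hp.mem_closure (fun n _ => inter_subset_right)
  refine ⟨φ, b, p, hφ, fun k => ⟨(hV k).2.1 (hb k).1, (hb k).2⟩, fun N hN => ?_⟩
  obtain ⟨U, hU, hUN, H⟩ := τ.cut p hpY N hN
  have hp' : ∀ᶠ k in atTop, p ∉ V k := by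
    by_cases h : ∃ k, p ∈ V k
    · obtain ⟨k, hk⟩ := h
      filter_upwards [eventually_gt_atTop k] with l hl hpl
      exact r_ne T (hmono k l hl p hk p hpl) rfl
    · exact Eventually.of_forall fun k hk => h ⟨k, hk⟩
  by_contra hno
  have h1 : ∃ᶠ k in atTop, b k ∉ N := not_eventually.1 hno
  obtain ⟨q, hq⟩ := τ.clus' (fun k => V k \ U) ((h1.and_eventually hp').mono fun k hk =>
    ⟨H _ (hV k).1 hk.2, b k, ⟨(hb k).1, fun h => hk.1 (hUN h)⟩, (hb k).2⟩)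
  have h2 : q ∈ closure Uᶜ := hq.mem_closure (fun n _ y hy => hy.1.2)
  have h3 : q = p := clus_unique' T γ (P := fun _ => True) (V := V)
    (fun n m _ _ h => hmono n m h)
    (hq.mono (fun _ h => h) (fun _ _ y hy => hy.1.1)) (hp.mono (fun _ h => h) (fun _ _ y hy => hy.1))
  rw [h3, closure_compl] at h2
  exact h2 (mem_interior_iff_mem_nhds.2 hU)

/-- The trace of a point on `Q`. -/
def trc (T : Tour X) (Q : Set X) (x : X) : Set X := {y | y ∈ Q ∧ T.b x y}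

theorem finite_trc {T : Tour X} {Y : Set X} (τ : Test T Y) {Q O₀ : Set X} (h0 : τ.O O₀)
    (hY : Y ⊆ O₀) (hYQ : Disjoint Y Q)
    (hcut : ∀ y ∈ Q, ∀ G, τ.O G → τ.O (G ∩ {x | T.b x y}) ∧ τ.O (G ∩ {x | T.b y x}))
    (hseq : ∀ (b : ℕ → X) (p : X), (∀ k, b k ∈ Y) → Tendsto b atTop (𝓝 p) →
      ∀ᶠ k in atTop, trc T Q (b k) = trc T Q p) : (trc T Q '' Y).Finite := by
  by_contra hinf
  let St := {R : Set X // τ.O R ∧ (trc T Q '' (R ∩ Y)).Infinite}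
  have step : ∀ R : St, ∃ R' : St, ∃ A : Set X, R'.1 ⊆ R.1 ∧ A ⊆ R.1 ∧ τ.O A ∧ (A ∩ Y).Nonempty ∧
      ∀ a ∈ A, ∀ c ∈ R'.1, trc T Q a ≠ trc T Q c := by
    rintro ⟨R, hR, hRi⟩
    obtain ⟨y, hy, b, hb, b', hb', h1, h2⟩ : ∃ y ∈ Q, ∃ b ∈ R ∩ Y, ∃ b' ∈ R ∩ Y,
        T.b b y ∧ T.b y b' := by
      obtain ⟨_, ⟨b, hb, rfl⟩, _, ⟨b', hb', rfl⟩, hne⟩ := hRi.nontrivial
      have key : ∀ b ∈ R ∩ Y, ∀ b' ∈ R ∩ Y, ¬ trc T Q b ⊆ trc T Q b' →
          ∃ y ∈ Q, ∃ b ∈ R ∩ Y, ∃ b' ∈ R ∩ Y, T.b b y ∧ T.b y b' := by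
        intro b hb b' hb' h
        obtain ⟨y, hy, hy'⟩ := not_subset.1 h
        refine ⟨y, hy.1, b, hb, b', hb', hy.2, T.of_not ?_ (fun h => hy' ⟨hy.1, h⟩)⟩
        rintro rfl
        exact Set.disjoint_left.1 hYQ hb'.2 hy.1
      by_cases h : trc T Q b ⊆ trc T Q b'
      · exact key b' hb' b hb (fun h' => hne (h.antisymm h'))
      · exact key b hb b' hb' h
    obtain ⟨k1, k2⟩ := hcut y hy R hR
    have hdiff : ∀ a ∈ R ∩ {x | T.b x y}, ∀ c ∈ R ∩ {x | T.b y x}, trc T Q a ≠ trc T Q c := by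
      intro a ha c hc h
      have : y ∈ trc T Q a := ⟨hy, ha.2⟩
      rw [h] at this
      exact T.asym _ _ this.2 hc.2
    by_cases h3 : (trc T Q '' (R ∩ {x | T.b x y} ∩ Y)).Infinite
    · exact ⟨⟨_, k1, h3⟩, R ∩ {x | T.b y x}, inter_subset_left, inter_subset_left, k2,
        ⟨b', ⟨hb'.1, h2⟩, hb'.2⟩, fun a ha c hc => (hdiff c hc a ha).symm⟩
    · refine ⟨⟨_, k2, fun h4 => hRi (((not_infinite.1 h3).union h4).subset ?_)⟩,
        R ∩ {x | T.b x y}, inter_subset_left, inter_subset_left, k1, ⟨b, ⟨hb.1, h1⟩, hb.2⟩, hdiff⟩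
      rintro _ ⟨x, hx, rfl⟩
      have hxy : x ≠ y := by
        rintro rfl
        exact Set.disjoint_left.1 hYQ hx.2 hy
      rcases T.tot x y hxy with h | h
      · exact Or.inl ⟨x, ⟨⟨hx.1, h⟩, hx.2⟩, rfl⟩
      · exact Or.inr ⟨x, ⟨⟨hx.1, h⟩, hx.2⟩, rfl⟩
  choose nx A h1 h2 h3 h4 h5 using step
  let R : ℕ → St := fun n => nx^[n] ⟨O₀, h0, by rwa [inter_eq_right.2 hY]⟩
  have hR : ∀ n, R (n + 1) = nx (R n) := fun n => Function.iterate_succ_apply' _ _ _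
  have hRa : ∀ n k, n ≤ k → (R k).1 ⊆ (R n).1 := by
    intro n k hnk
    induction k, hnk using Nat.le_induction with
    | base => exact Subset.rfl
    | succ k _ ih => rw [hR]; exact (h1 _).trans ih
  have hlt : ∀ n k, n < k → ∀ a ∈ A (R n), ∀ c ∈ A (R k), trc T Q a ≠ trc T Q c := by
    intro n k hnk a ha c hc
    apply h5 _ a ha c
    rw [← hR]
    exact hRa _ _ hnk (h2 _ hc)
  obtain ⟨φ, b, p, hφ, hb, hbp⟩ := conv_seq τ (fun n => A (R n)) (fun n => h3 _) (fun n => h4 _)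
    (fun n m hnm => by
      rw [Set.disjoint_left]
      intro a ha ha'
      rcases lt_or_gt_of_ne hnm with h | h
      · exact hlt n m h a ha a ha' rfl
      · exact hlt m n h a ha' a ha rfl)
  obtain ⟨N, hN⟩ := eventually_atTop.1 (hseq b p (fun k => (hb k).2) hbp)
  exact hlt _ _ (hφ (Nat.lt_succ_self N)) _ (hb N).1 _ (hb (N + 1)).1
    ((hN N le_rfl).trans (hN (N + 1) (Nat.le_succ N)).symm)

end Pool.Agent.P.MP_abcfaf_gt.R
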